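import Pool.Agent.Helper81_Fine.W1B

/-!
The wedge function has all properties.
-/

namespace Pool.Agent.H16F.H81

open MeasureTheory Complex Filter Topology Set Pool.Agent.H16F Pool.Agent.H16Iso Pool.Agent.H62T
open scoped ContDiff NNReal

/-! ### Gluing Lipschitz functions -/

theorem glue {f : ℂ → ℝ} {A B : Set ℂ} {K : ℝ≥0} (hA : IsClosed A) (hB : IsClosed B)
    (hAB : Convex ℝ (A ∪ B)) (h1 : LipschitzOnWith K f A) (h2 : LipschitzOnWith K f B) :
    LipschitzOnWith K f (A ∪ B) := by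
  have key : ∀ x ∈ A, ∀ y ∈ B, dist (f x) (f y) ≤ K * dist x y := by
    intro x hx y hy
    have hseg : segment ℝ x y ⊆ A ∪ B := hAB.segment_subset (Or.inl hx) (Or.inr hy)
    have hpre : IsPreconnected (segment ℝ x y) := (convex_segment x y).isPreconnected
    obtain ⟨z, hz1, hz2, hz3⟩ := isPreconnected_closed_iff.1 hpre A B hA hB hseg
      ⟨x, left_mem_segment ℝ x y, hx⟩ ⟨y, right_mem_segment ℝ x y, hy⟩
    have hd : dist x z + dist z y = dist x y := dist_add_dist_of_mem_segment hz1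
    calc dist (f x) (f y) ≤ dist (f x) (f z) + dist (f z) (f y) := dist_triangle _ _ _
      _ ≤ K * dist x z + K * dist z y :=
          add_le_add (h1.dist_le_mul x hx z hz2) (h2.dist_le_mul z hz3 y hy)
      _ = K * dist x y := by rw [← mul_add, hd]
  refine LipschitzOnWith.of_dist_le_mul ?_
  rintro x (hx | hx) y (hy | hy)
  · exact h1.dist_le_mul x hx y hy
  · exact key x hx y hy
  · rw [dist_comm (f x), dist_comm x]
    exact key y hy x hx
  · exact h2.dist_le_mul x hx y hy

/-! ### The part of the half-plane beyond the wedge -/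

/-- closed wedge -/
def P1 (β : ℝ) : Set ℂ := {x | 0 ≤ x.im ∧ 0 ≤ x.re * Real.sin β + x.im * Real.cos β}

/-- closed region beyond the wedge -/
def P2 (β : ℝ) : Set ℂ := {x | 0 ≤ x.im ∧ x.re * Real.sin β + x.im * Real.cos β ≤ 0}

/-- closed lower half-plane -/
def P3 : Set ℂ := {x | x.im ≤ 0}

theorem trig_pos {β : ℝ} (h0 : 0 < β) (h1 : β < Real.pi / 3) : 0 < Real.sin β ∧ 0 < Real.cos β := by
  have hp := Real.pi_pos
  exact ⟨Real.sin_pos_of_pos_of_lt_pi h0 (by linarith),
    Real.cos_pos_of_mem_Ioo ⟨by linarith, by linarith⟩⟩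

theorem P1_sub {β : ℝ} (h0 : 0 < β) (h1 : β < Real.pi / 3) : P1 β ⊆ closure (W1 β) := by
  obtain ⟨hs, hc⟩ := trig_pos h0 h1
  intro x hx
  refine mem_closure_of_tendsto (f := fun t : ℝ => x + t * I) (b := 𝓝[>] 0) ?_ ?_
  · have : Continuous fun t : ℝ => x + t * I := by fun_prop
    have h2 := this.tendsto 0
    simp only [ofReal_zero, zero_mul, add_zero] at h2
    exact h2.mono_left nhdsWithin_le_nhds
  · filter_upwards [self_mem_nhdsWithin] with t ht
    have ht' : 0 < t := ht
    have e1 : (x + t * I).im = x.im + t := by simp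
    have e2 : (x + t * I).re = x.re := by simp
    refine ⟨?_, ?_⟩
    · rw [e1]; have := hx.1; linarith
    · rw [e1, e2]
      have := hx.2
      linarith only [this, mul_pos ht' hc]

theorem closure_eq {β : ℝ} (h0 : 0 < β) (h1 : β < Real.pi / 3) : closure (W1 β) = P1 β :=
  Subset.antisymm (closure_W1 β) (P1_sub h0 h1)

theorem beyond_re {β : ℝ} (h0 : 0 < β) (h1 : β < Real.pi / 3) {x : ℂ} (hx : x ∈ P2 β) :
    Real.cos β * ‖x‖ ≤ -x.re := by
  obtain ⟨hs, hc⟩ := trig_pos h0 h1
  obtain ⟨h2, h3⟩ := hx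
  have h4 : 0 ≤ x.im * Real.cos β := mul_nonneg h2 hc.le
  have h5 : 0 ≤ -x.re := by
    by_contra h
    push Not at h
    have : 0 < x.re * Real.sin β := mul_pos (by linarith) hs
    linarith
  refine abs_le_of_sq_le_sq' ?_ h5 |>.2
  rw [mul_pow, Complex.sq_norm, Complex.normSq_apply]
  have h6 : (x.im * Real.cos β) ^ 2 ≤ (-x.re * Real.sin β) ^ 2 := by
    refine pow_le_pow_left₀ h4 (by linarith) 2
  have h7 := Real.sin_sq_add_cos_sq β
  have h8 : Real.sin β ^ 2 = 1 - Real.cos β ^ 2 := by linarith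
  have h9 : (-x.re * Real.sin β) ^ 2 = x.re ^ 2 * (1 - Real.cos β ^ 2) := by rw [← h8]; ring
  rw [h9] at h6
  linarith only [h6]

theorem cosh_le_exp' {u : ℝ} (hu : 0 < u) : Real.cosh u ≤ Real.exp u := by
  have := cosh_le_exp u
  rwa [abs_of_pos hu] at this

theorem exp_re_le {u : ℝ} {x : ℂ} (hx : x.re ≤ 0) : Real.exp (x.re * Real.cosh u) ≤ Real.exp x.re := by
  rw [Real.exp_le_exp]
  have := Real.one_le_cosh u
  nlinarith

theorem EE_bound {β : ℝ} (h0 : 0 < β) (h1 : β < Real.pi / 3) {u : ℝ} {x : ℂ}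
    (hx : x ∈ P2 β) : |EE u x| ≤ Real.exp (-(Real.cos β * ‖x‖)) := by
  obtain ⟨hs, hc⟩ := trig_pos h0 h1
  have h2 := beyond_re h0 h1 hx
  have h3 : x.re ≤ 0 := by
    have := mul_nonneg hc.le (norm_nonneg x)
    linarith
  unfold EE
  rw [abs_mul, abs_of_pos (Real.exp_pos _)]
  calc _ ≤ Real.exp x.re * 1 :=
        mul_le_mul (exp_re_le h3) (Real.abs_sin_le_one _) (abs_nonneg _) (Real.exp_pos _).le
    _ ≤ _ := by
        rw [mul_one, Real.exp_le_exp]
        linarith

/-- the derivative of `EE` -/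
noncomputable def dEE (u : ℝ) (x : ℂ) : ℂ →L[ℝ] ℝ :=
  (Real.exp (x.re * Real.cosh u) * Real.cosh u * Real.sin (x.im * Real.sinh u)) • Complex.reCLM
    + (Real.exp (x.re * Real.cosh u) * (Real.cos (x.im * Real.sinh u) * Real.sinh u)) • Complex.imCLM

theorem EE_hasFDerivAt (u : ℝ) (x : ℂ) : HasFDerivAt (EE u) (dEE u x) x := by
  have h1 : HasFDerivAt (fun y : ℂ => y.re * Real.cosh u) (Real.cosh u • Complex.reCLM) x := by
    have := Complex.reCLM.hasFDerivAt (x := x)
    exact this.mul_const (Real.cosh u)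
  have h2 : HasFDerivAt (fun y : ℂ => y.im * Real.sinh u) (Real.sinh u • Complex.imCLM) x := by
    have := Complex.imCLM.hasFDerivAt (x := x)
    exact this.mul_const (Real.sinh u)
  have h3 := h1.exp.mul h2.sin
  refine h3.congr_fderiv ?_
  ext v
  unfold dEE
  simp only [add_apply, smul_apply, Complex.reCLM_apply, Complex.imCLM_apply, smul_eq_mul]
  ring

theorem dEE_one (u : ℝ) (x : ℂ) : dEE u x 1
    = Real.exp (x.re * Real.cosh u) * Real.cosh u * Real.sin (x.im * Real.sinh u) := by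
  unfold dEE
  simp

theorem dEE_I (u : ℝ) (x : ℂ) : dEE u x I
    = Real.exp (x.re * Real.cosh u) * (Real.cos (x.im * Real.sinh u) * Real.sinh u) := by
  unfold dEE
  simp

theorem sinh_le_exp' {u : ℝ} (hu : 0 < u) : |Real.sinh u| ≤ Real.exp u := by
  rw [abs_of_pos (Real.sinh_pos_iff.2 hu), Real.sinh_eq]
  have h1 := Real.exp_pos u
  have h2 := Real.exp_pos (-u)
  linarith

theorem dEE_bound {β : ℝ} (h0 : 0 < β) (h1 : β < Real.pi / 3) {u : ℝ} (hu : 0 < u) {x : ℂ}
    (hx : x ∈ P2 β) : |dEE u x 1| ≤ Real.exp u * Real.exp (-(Real.cos β * ‖x‖)) ∧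
      |dEE u x I| ≤ Real.exp u * Real.exp (-(Real.cos β * ‖x‖)) := by
  obtain ⟨hs, hc⟩ := trig_pos h0 h1
  have h2 := beyond_re h0 h1 hx
  have h3 : x.re ≤ 0 := by
    have := mul_nonneg hc.le (norm_nonneg x)
    linarith
  have h4 : Real.exp (x.re * Real.cosh u) ≤ Real.exp (-(Real.cos β * ‖x‖)) := by
    refine (exp_re_le h3).trans ?_
    rw [Real.exp_le_exp]
    linarith
  have h5 := cosh_le_exp' hu
  have h6 := sinh_le_exp' hu
  constructor
  · rw [dEE_one, abs_mul, abs_mul, abs_of_pos (Real.exp_pos _), abs_of_pos (Real.cosh_pos u)]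
    calc _ ≤ Real.exp (-(Real.cos β * ‖x‖)) * Real.exp u * 1 := by
          refine mul_le_mul (mul_le_mul h4 h5 (Real.cosh_pos u).le (Real.exp_pos _).le)
            (Real.abs_sin_le_one _) (abs_nonneg _) (by positivity)
      _ = _ := by ring
  · rw [dEE_I, abs_mul, abs_mul, abs_of_pos (Real.exp_pos _)]
    calc _ ≤ Real.exp (-(Real.cos β * ‖x‖)) * (1 * Real.exp u) := by
          refine mul_le_mul h4 (mul_le_mul (Real.abs_cos_le_one _) h6 (abs_nonneg _) zero_le_one)
            (by positivity) (Real.exp_pos _).le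
      _ = _ := by ring

theorem norm_lin (L : ℂ →L[ℝ] ℝ) : ‖L‖ ≤ |L 1| + |L I| := by
  refine ContinuousLinearMap.opNorm_le_bound _ (by positivity) fun v => ?_
  have h : L v = v.re * L 1 + v.im * L I := by
    have : v = (v.re : ℝ) • (1 : ℂ) + (v.im : ℝ) • I := by
      simp
    conv_lhs => rw [this]
    rw [map_add, map_smul, map_smul]
    simp
  rw [h, Real.norm_eq_abs]
  refine (abs_add_le _ _).trans ?_
  rw [abs_mul, abs_mul]
  have h1 := mul_le_mul_of_nonneg_right (Complex.abs_re_le_norm v) (abs_nonneg (L 1))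
  have h2 := mul_le_mul_of_nonneg_right (Complex.abs_im_le_norm v) (abs_nonneg (L I))
  linarith

/-! ### Values of the wedge function -/

theorem Sw_P1 {β : ℝ} (h0 : 0 < β) (h1 : β < Real.pi / 3) {u : ℝ} (hu : 0 < u) {x : ℂ}
    (hx : x ∈ P1 β) : Sw β u x = Sc β u x := by
  obtain ⟨hs, hc⟩ := trig_pos h0 h1
  obtain ⟨b1, b2, b3⟩ := w1a β u h0 h1 hu
  unfold Sw
  split_ifs with h2 h3
  · have him : x.im = 0 := le_antisymm h2 hx.1
    have hre : 0 ≤ x.re := by
      have h4 := hx.2
      rw [him, zero_mul, add_zero] at h4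
      by_contra h
      push Not at h
      nlinarith only [h4, hs, h]
    exact (b1 x him hre).symm
  · rfl
  · have him : 0 < x.im := not_le.1 h2
    have h4 : x.re * Real.sin β + x.im * Real.cos β = 0 := by
      refine le_antisymm ?_ hx.2
      by_contra h
      push Not at h
      exact h3 ⟨him, h⟩
    exact (b2 x hx.1 h4).symm

theorem Sw_P2 {β : ℝ} {u : ℝ} {x : ℂ} (hx : x ∈ P2 β) : Sw β u x = EE u x := by
  unfold Sw
  split_ifs with h2 h3
  · have him : x.im = 0 := le_antisymm h2 hx.1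
    unfold EE
    rw [him]
    simp
  · exact absurd h3.2 (not_lt.2 hx.2)
  · rfl

theorem Sw_P3 {β : ℝ} {u : ℝ} {x : ℂ} (hx : x ∈ P3) : Sw β u x = 0 := by
  have hx' : x.im ≤ 0 := hx
  unfold Sw
  rw [if_pos hx']

theorem W1_convex (β : ℝ) : Convex ℝ (W1 β) := by
  have e : W1 β = {x : ℂ | 0 < Complex.imCLM x} ∩
      {x : ℂ | 0 < (Real.sin β • Complex.reCLM + Real.cos β • Complex.imCLM : ℂ →L[ℝ] ℝ) x} := by
    ext x
    simp only [W1, mem_ofPred_eq, mem_inter_iff, add_apply, smul_apply, Complex.reCLM_apply,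
      Complex.imCLM_apply, smul_eq_mul]
    constructor
    · rintro ⟨a, b⟩
      exact ⟨a, by linarith⟩
    · rintro ⟨a, b⟩
      exact ⟨a, by linarith⟩
  rw [e]
  exact (convex_halfSpace_gt (Complex.imCLM).isLinear 0).inter
    (convex_halfSpace_gt (Real.sin β • Complex.reCLM + Real.cos β • Complex.imCLM : ℂ →L[ℝ] ℝ).isLinear 0)

theorem P2_convex (β : ℝ) : Convex ℝ (P2 β) := by
  have e : P2 β = {x : ℂ | 0 ≤ Complex.imCLM x} ∩
      {x : ℂ | (Real.sin β • Complex.reCLM + Real.cos β • Complex.imCLM : ℂ →L[ℝ] ℝ) x ≤ 0} := by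
    ext x
    simp only [P2, mem_ofPred_eq, mem_inter_iff, add_apply, smul_apply, Complex.reCLM_apply,
      Complex.imCLM_apply, smul_eq_mul]
    constructor
    · rintro ⟨a, b⟩
      exact ⟨a, by linarith⟩
    · rintro ⟨a, b⟩
      exact ⟨a, by linarith⟩
  rw [e]
  exact (convex_halfSpace_ge (Complex.imCLM).isLinear 0).inter
    (convex_halfSpace_le (Real.sin β • Complex.reCLM + Real.cos β • Complex.imCLM : ℂ →L[ℝ] ℝ).isLinear 0)

theorem W1_open (β : ℝ) : IsOpen (W1 β) :=
  (isOpen_lt continuous_const continuous_im).inter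
    (isOpen_lt (f := fun _ : ℂ => (0 : ℝ))
      (g := fun x : ℂ => x.re * Real.sin β + x.im * Real.cos β) continuous_const (by fun_prop))

theorem Sw_lipschitz {β : ℝ} (h0 : 0 < β) (h1 : β < Real.pi / 3) {u : ℝ} (hu : 0 < u) :
    ∃ K : ℝ≥0, LipschitzWith K (Sw β u) := by
  obtain ⟨hs, hc⟩ := trig_pos h0 h1
  obtain ⟨C, c, hc0, hC⟩ := w1b β h0 h1
  obtain ⟨b1, b2, b3, b4, b5⟩ := hC u hu
  obtain ⟨M, hM⟩ : ∃ M : ℝ, M = |C * Real.exp (C * u)| + 2 * Real.exp u := ⟨_, rfl⟩
  have hM0 : 0 ≤ M := by rw [hM]; positivity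
  obtain ⟨K, hK⟩ : ∃ K : ℝ≥0, (K : ℝ) = M := ⟨Real.toNNReal M, Real.coe_toNNReal _ hM0⟩
  refine ⟨K, ?_⟩
  have l1 : LipschitzOnWith K (Sw β u) (P1 β) := by
    have a1 : LipschitzOnWith K (Sc β u) (W1 β) := by
      refine Convex.lipschitzOnWith_of_nnnorm_fderiv_le (𝕜 := ℝ) ?_ ?_ (W1_convex β)
      · intro x hx
        exact (Sc_fderiv h0 h1 hu (AA_pos_of_mem h0 h1 hx)).differentiableAt
      · intro x hx
        rw [← NNReal.coe_le_coe, coe_nnnorm, hK]
        refine (b4 x hx).trans ?_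
        have h2 : Real.exp (-(c * ‖x‖)) ≤ 1 := by
          rw [Real.exp_le_one_iff]
          have := norm_nonneg x
          linarith only [mul_nonneg hc0.le this]
        calc _ ≤ |C * Real.exp (C * u)| * 1 :=
              mul_le_mul (le_abs_self _) h2 (Real.exp_pos _).le (abs_nonneg _)
          _ ≤ M := by rw [hM, mul_one]; have := Real.exp_pos u; linarith
    have a2 := LipschitzOnWith.closure b1 a1
    rw [closure_eq h0 h1] at a2
    intro x hx y hy
    rw [Sw_P1 h0 h1 hu hx, Sw_P1 h0 h1 hu hy]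
    exact a2 hx hy
  have l2 : LipschitzOnWith K (Sw β u) (P2 β) := by
    have a1 : LipschitzOnWith K (EE u) (P2 β) := by
      refine Convex.lipschitzOnWith_of_nnnorm_fderiv_le (𝕜 := ℝ) ?_ ?_ (P2_convex β)
      · intro x hx
        exact (EE_hasFDerivAt u x).differentiableAt
      · intro x hx
        rw [← NNReal.coe_le_coe, coe_nnnorm, hK, (EE_hasFDerivAt u x).fderiv]
        refine (norm_lin _).trans ?_
        obtain ⟨d1, d2⟩ := dEE_bound h0 h1 hu hx
        have h2 : Real.exp (-(Real.cos β * ‖x‖)) ≤ 1 := by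
          rw [Real.exp_le_one_iff]
          have := norm_nonneg x
          linarith only [mul_nonneg hc.le this]
        have h3 := mul_le_mul_of_nonneg_left h2 (Real.exp_pos u).le
        have h4 := abs_nonneg (C * Real.exp (C * u))
        rw [hM]
        linarith
    intro x hx y hy
    rw [Sw_P2 hx, Sw_P2 hy]
    exact a1 hx hy
  have l3 : LipschitzOnWith K (Sw β u) P3 := by
    intro x hx y hy
    rw [Sw_P3 hx, Sw_P3 hy]
    simp
  have c1 : IsClosed (P1 β) := by rw [← closure_eq h0 h1]; exact isClosed_closure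
  have c2 : IsClosed (P2 β) :=
    (isClosed_le continuous_const continuous_im).inter
      (isClosed_le (g := fun _ : ℂ => (0 : ℝ))
        (f := fun x : ℂ => x.re * Real.sin β + x.im * Real.cos β) (by fun_prop) continuous_const)
  have c3 : IsClosed P3 := isClosed_le continuous_im continuous_const
  have e12 : P1 β ∪ P2 β = {x : ℂ | 0 ≤ Complex.imCLM x} := by
    ext x
    simp only [P1, P2, mem_union, mem_ofPred_eq, Complex.imCLM_apply]
    constructor
    · rintro (h | h)
      · exact h.1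
      · exact h.1
    · intro h
      rcases le_total 0 (x.re * Real.sin β + x.im * Real.cos β) with h2 | h2
      · exact Or.inl ⟨h, h2⟩
      · exact Or.inr ⟨h, h2⟩
  have e123 : (P1 β ∪ P2 β) ∪ P3 = univ := by
    rw [e12]
    ext x
    simp only [P3, mem_union, mem_ofPred_eq, Complex.imCLM_apply, mem_univ, iff_true]
    exact le_total _ _
  have l12 := glue c1 c2 (by rw [e12]; exact convex_halfSpace_ge (Complex.imCLM).isLinear 0) l1 l2
  have l123 := glue (c1.union c2) c3 (by rw [e123]; exact convex_univ) l12 l3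
  rw [e123] at l123
  exact lipschitzOnWith_univ.1 l123

/-! ### The gradient -/

open Classical in
/-- derivative of the wedge function in the direction `v` -/
noncomputable def DD (β : ℝ) (v : ℂ) (u : ℝ) (x : ℂ) : ℝ :=
  if x.im ≤ 0 then 0 else if x ∈ W1 β then reL (JJ β (fun w => Tw β w v * Fw β u w) x)
    else dEE u x v

theorem meas_int (β : ℝ) (h : ℝ → ℂ) (hh : Continuous h) :
    Measurable (fun p : ℝ × ℂ => ∫ w : ℝ, Ex β w p.2 * (h w * Fw β p.1 w)) := by
  have h1 : Measurable (Function.uncurry fun (p : ℝ × ℂ) (w : ℝ) => Ex β w p.2 * (h w * Fw β p.1 w)) := by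
    have a1 : Measurable (fun q : (ℝ × ℂ) × ℝ => Ex β q.2 q.1.2) := by
      unfold Ex
      fun_prop
    have a2 : Measurable (fun q : (ℝ × ℂ) × ℝ => Fw β q.1.1 q.2) := by
      unfold Fw
      fun_prop
    have a3 : Measurable (fun q : (ℝ × ℂ) × ℝ => h q.2) := hh.measurable.comp measurable_snd
    exact Measurable.mul a1 (Measurable.mul a3 a2)
  exact (h1.stronglyMeasurable.integral_prod_right).measurable

theorem meas_W1 (β : ℝ) : MeasurableSet {p : ℝ × ℂ | p.2 ∈ W1 β} :=
  (W1_open β).measurableSet.preimage measurable_snd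

theorem meas_le : MeasurableSet {p : ℝ × ℂ | p.2.im ≤ 0} :=
  measurableSet_le (by fun_prop) measurable_const

open Classical in
theorem meas_Sw (β : ℝ) : Measurable (Function.uncurry (Sw β)) := by
  have e : Function.uncurry (Sw β) = fun p : ℝ × ℂ => if p.2.im ≤ 0 then 0
      else if p.2 ∈ W1 β then reL (∫ w : ℝ, Ex β w p.2 * (1 * Fw β p.1 w)) else EE p.1 p.2 := by
    funext p
    simp only [Function.uncurry, Sw, one_mul, Sc_JJ]
    rfl
  rw [e]
  refine Measurable.ite meas_le measurable_const (Measurable.ite (meas_W1 β) ?_ ?_)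
  · exact reL.continuous.measurable.comp (meas_int β (fun _ => 1) continuous_const)
  · unfold EE
    fun_prop

open Classical in
theorem meas_DD (β : ℝ) (v : ℂ) : Measurable (Function.uncurry (DD β v)) := by
  have e : Function.uncurry (DD β v) = fun p : ℝ × ℂ => if p.2.im ≤ 0 then 0
      else if p.2 ∈ W1 β then reL (∫ w : ℝ, Ex β w p.2 * (Tw β w v * Fw β p.1 w))
        else dEE p.1 p.2 v := by
    funext p
    rfl
  rw [e]
  refine Measurable.ite meas_le measurable_const (Measurable.ite (meas_W1 β) ?_ ?_)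
  · have hc : Continuous fun w => Tw β w v := by
      have := Tw_cont β
      fun_prop
    exact reL.continuous.measurable.comp (meas_int β _ hc)
  · unfold dEE
    simp only [add_apply, smul_apply, Complex.reCLM_apply, Complex.imCLM_apply, smul_eq_mul]
    fun_prop

theorem null_line {a b : ℝ} (h : a ≠ 0 ∨ b ≠ 0) : ∀ᵐ x : ℂ, a * x.re + b * x.im ≠ 0 := by
  obtain ⟨L, hL⟩ : ∃ L : ℂ →ₗ[ℝ] ℝ, ∀ x, L x = a * x.re + b * x.im :=
    ⟨(a • Complex.reCLM + b • Complex.imCLM : ℂ →L[ℝ] ℝ), fun x => by simp⟩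
  have h2 : (LinearMap.ker L) ≠ ⊤ := by
    intro h3
    have h4 : ∀ x, L x = 0 := fun x => by
      have : x ∈ LinearMap.ker L := by rw [h3]; trivial
      exact this
    rcases h with h | h
    · have := h4 1
      rw [hL] at this
      simp at this
      exact h this
    · have := h4 I
      rw [hL] at this
      simp at this
      exact h this
  have h3 := Measure.addHaar_submodule volume (LinearMap.ker L) h2
  rw [ae_iff]
  convert h3 using 2
  ext x
  simp [hL]

theorem lineDeriv_Sw {β : ℝ} (h0 : 0 < β) (h1 : β < Real.pi / 3) {u : ℝ} (hu : 0 < u) (v : ℂ) :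
    ∀ᵐ x : ℂ, lineDeriv ℝ (Sw β u) x v = DD β v u x := by
  obtain ⟨hs, hc⟩ := trig_pos h0 h1
  filter_upwards [null_line (a := 0) (b := 1) (Or.inr one_ne_zero),
    null_line (a := Real.sin β) (b := Real.cos β) (Or.inl hs.ne')] with x hx1 hx2
  rw [zero_mul, one_mul, zero_add] at hx1
  rcases lt_or_gt_of_ne hx1 with him | him
  · have e : Sw β u =ᶠ[𝓝 x] fun _ => (0 : ℝ) := by
      filter_upwards [(isOpen_lt continuous_im continuous_const).mem_nhds him] with y hy
      exact Sw_P3 (le_of_lt hy)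
    have hd : HasFDerivAt (Sw β u) (0 : ℂ →L[ℝ] ℝ) x := (hasFDerivAt_const (0 : ℝ) x).congr_of_eventuallyEq e
    rw [(hd.hasLineDerivAt v).lineDeriv]
    unfold DD
    rw [if_pos him.le]
    rfl
  · by_cases hW : x ∈ W1 β
    · have e : Sw β u =ᶠ[𝓝 x] Sc β u := by
        filter_upwards [(W1_open β).mem_nhds hW] with y hy
        exact Sw_P1 h0 h1 hu ⟨hy.1.le, hy.2.le⟩
      have hA := AA_pos_of_mem h0 h1 hW
      have hd := (Sc_fderiv h0 h1 hu hA).congr_of_eventuallyEq e
      rw [(hd.hasLineDerivAt v).lineDeriv]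
      unfold DD
      rw [if_neg (not_le.2 him), if_pos hW, ContinuousLinearMap.comp_apply,
        JJ_fderiv (Fw_adm h0 h1 hu) hA]
    · have hlt : x.re * Real.sin β + x.im * Real.cos β < 0 := by
        refine lt_of_le_of_ne ?_ ?_
        · by_contra h
          push Not at h
          exact hW ⟨him, h⟩
        · intro h
          apply hx2
          linarith
      have ho : IsOpen {y : ℂ | 0 < y.im ∧ y.re * Real.sin β + y.im * Real.cos β < 0} :=
        (isOpen_lt continuous_const continuous_im).inter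
          (isOpen_lt (g := fun _ : ℂ => (0 : ℝ))
            (f := fun x : ℂ => x.re * Real.sin β + x.im * Real.cos β) (by fun_prop) continuous_const)
      have e : Sw β u =ᶠ[𝓝 x] EE u := by
        filter_upwards [ho.mem_nhds ⟨him, hlt⟩] with y hy
        exact Sw_P2 ⟨hy.1.le, hy.2.le⟩
      have hd := (EE_hasFDerivAt u x).congr_of_eventuallyEq e
      rw [(hd.hasLineDerivAt v).lineDeriv]
      unfold DD
      rw [if_neg (not_le.2 him), if_neg hW]

/-- exponential decay implies square integrability -/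
theorem memLp_of_decay {E : Type*} [NormedAddCommGroup E] {f : ℂ → E}
    (hf : AEStronglyMeasurable f volume) {M c : ℝ} (hc : 0 < c)
    (hb : ∀ x, ‖f x‖ ≤ M * Real.exp (-(c * ‖x‖))) : MemLp f 2 volume := by
  have h1 : MemLp (fun x : ℂ => M * Real.exp (-(c * ‖x‖))) 2 volume := by
    rw [memLp_two_iff_integrable_sq (by
      exact (Continuous.aestronglyMeasurable (by fun_prop)))]
    have h2 : Integrable (fun x : ℂ => (1 + ‖x‖) ^ (-(3 : ℝ))) := by
      refine integrable_one_add_norm ?_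
      rw [Complex.finrank_real_complex]
      norm_num
    refine (h2.const_mul (M ^ 2 * (6 / (2 * c) ^ 3 * Real.exp (2 * c)))).mono'
      (Continuous.aestronglyMeasurable (by fun_prop)) (Eventually.of_forall fun x => ?_)
    have hx := norm_nonneg x
    have e1 : (1 + ‖x‖) ^ (-(3 : ℝ)) = ((1 + ‖x‖) ^ 3)⁻¹ := by
      rw [Real.rpow_neg (by positivity)]
      norm_cast
    have h3 := Real.pow_div_factorial_le_exp (2 * c * (1 + ‖x‖)) (by positivity) 3
    have h4 : (2 * c) ^ 3 * (1 + ‖x‖) ^ 3 ≤ 6 * (Real.exp (2 * c) * Real.exp (2 * c * ‖x‖)) := by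
      rw [← Real.exp_add]
      have e : (2 * c * (1 + ‖x‖)) ^ 3 = (2 * c) ^ 3 * (1 + ‖x‖) ^ 3 := by ring
      rw [e, div_le_iff₀ (by positivity)] at h3
      have e2 : 2 * c * (1 + ‖x‖) = 2 * c + 2 * c * ‖x‖ := by ring
      rw [e2] at h3
      have e3 : ((Nat.factorial 3 : ℕ) : ℝ) = 6 := by norm_num [Nat.factorial]
      rw [e3] at h3
      linarith
    rw [Real.norm_eq_abs, abs_of_nonneg (by positivity), mul_pow, ← Real.exp_nat_mul, e1, mul_assoc]
    refine mul_le_mul_of_nonneg_left ?_ (by positivity)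
    have e5 : ((2 : ℕ) : ℝ) * -(c * ‖x‖) = -(2 * c * ‖x‖) := by push_cast; ring
    rw [e5, Real.exp_neg, ← div_eq_mul_inv, inv_eq_one_div, div_le_div_iff₀ (Real.exp_pos _) (by positivity)]
    have e6 : 6 / (2 * c) ^ 3 * Real.exp (2 * c) * Real.exp (2 * c * ‖x‖)
        = 6 * (Real.exp (2 * c) * Real.exp (2 * c * ‖x‖)) / (2 * c) ^ 3 := by ring
    rw [e6, one_mul, le_div_iff₀ (by positivity)]
    linarith only [h4]
  exact h1.mono' hf (Eventually.of_forall hb)

/-! ### Integration by parts -/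

theorem integrable_loc {U : Set ℂ} (hU : IsOpen U) {f φ : ℂ → ℝ} (hf : ContinuousOn f U)
    (hφ : Continuous φ) (hc : HasCompactSupport φ) (hs : tsupport φ ⊆ U) :
    Integrable fun x => f x * φ x := by
  have h1 : HasCompactSupport (fun x => f x * φ x) := hc.mul_left
  have h2 : Continuous fun x => f x * φ x := by
    refine continuous_of_tsupport fun x hx => ?_
    have hx' : x ∈ tsupport φ := tsupport_mul_subset_right hx
    exact (hf.continuousAt (hU.mem_nhds (hs hx'))).mul hφ.continuousAt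
  exact h2.integrable_of_hasCompactSupport h1

theorem ibp {U : Set ℂ} (hU : IsOpen U) {f φ : ℂ → ℝ} (hf : ContDiffOn ℝ 1 f U)
    (hφ : ContDiff ℝ 1 φ) (hc : HasCompactSupport φ) (hs : tsupport φ ⊆ U) (v : ℂ) :
    ∫ x, f x * fderiv ℝ φ x v = -∫ x, fderiv ℝ f x v * φ x := by
  have hd : ∀ x ∈ U, DifferentiableAt ℝ f x := fun x hx =>
    (hf.differentiableOn one_ne_zero).differentiableAt (hU.mem_nhds hx)
  have hf' : ContinuousOn (fun x => fderiv ℝ f x v) U :=
    (hf.continuousOn_fderiv_of_isOpen hU le_rfl).clm_apply continuousOn_const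
  refine integral_mul_fderiv_eq_neg_fderiv_mul_of_integrable ?_ ?_ ?_ ?_ ?_
  · exact integrable_loc hU hf' hφ.continuous hc hs
  · exact integrable_loc hU hf.continuousOn
      ((hφ.continuous_fderiv one_ne_zero).clm_apply continuous_const) (hc.fderiv_apply (𝕜 := ℝ) v)
      ((tsupport_fderiv_apply_subset ℝ v).trans hs)
  · exact integrable_loc hU hf.continuousOn hφ.continuous hc hs
  · exact fun x hx => hd x (hs hx)
  · exact fun x _ => (hφ.differentiable one_ne_zero) x

theorem ibp2 {U : Set ℂ} (hU : IsOpen U) {f φ : ℂ → ℝ} (hf : ContDiffOn ℝ 2 f U)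
    (hφ : ContDiff ℝ ∞ φ) (hc : HasCompactSupport φ) (hs : tsupport φ ⊆ U) (v : ℂ) :
    (∫ x, f x * fderiv ℝ (fun y => fderiv ℝ φ y v) x v
      = ∫ x, fderiv ℝ (fun y => fderiv ℝ f y v) x v * φ x) ∧
    Integrable (fun x => f x * fderiv ℝ (fun y => fderiv ℝ φ y v) x v) ∧
    Integrable (fun x => fderiv ℝ (fun y => fderiv ℝ f y v) x v * φ x) := by
  have h5 : ContDiff ℝ 2 φ := contDiff_infty.1 hφ 2
  have h1 : ContDiff ℝ 1 (fun y => fderiv ℝ φ y v) :=
    ContDiff.clm_apply (h5.fderiv_right (m := 1) (by norm_num)) contDiff_const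
  have h2 : ContDiffOn ℝ 1 (fun y => fderiv ℝ f y v) U :=
    ContDiffOn.clm_apply (hf.fderiv_of_isOpen hU (m := 1) (by norm_num)) contDiffOn_const
  have h3 : ContDiffOn ℝ 1 f U := hf.of_le (by norm_num)
  have h4 : ContDiff ℝ 1 φ := hφ.of_le (by exact_mod_cast le_top)
  refine ⟨?_, ?_, ?_⟩
  · rw [ibp hU h3 h1 (hc.fderiv_apply (𝕜 := ℝ) v) ((tsupport_fderiv_apply_subset ℝ v).trans hs) v,
      ibp hU h2 h4 hc hs v, neg_neg]
  · refine integrable_loc hU hf.continuousOn
      ((h1.continuous_fderiv one_ne_zero).clm_apply continuous_const)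
      ((hc.fderiv_apply (𝕜 := ℝ) v).fderiv_apply (𝕜 := ℝ) v)
      ((tsupport_fderiv_apply_subset ℝ v).trans ((tsupport_fderiv_apply_subset ℝ v).trans hs))
  · exact integrable_loc hU ((h2.continuousOn_fderiv_of_isOpen hU le_rfl).clm_apply continuousOn_const)
      h4.continuous hc hs

theorem grad_congr {f : ℂ → ℝ} {g g' : ℂ → ℂ} (h : Grad f g) (e : g =ᵐ[volume] g') : Grad f g' := by
  refine ⟨h.memf, h.memg.ae_eq e, fun φ hφ v => ?_⟩
  rw [h.weak φ hφ v]
  congr 1
  refine integral_congr_ae ?_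
  filter_upwards [e] with x hx
  rw [hx]

theorem mono_bound {A K c c' u t : ℝ} (h1 : A ≤ K) (h2 : c ≤ c') (hu : 0 < u) (ht : 0 ≤ t)
    (hK : 0 ≤ K) : A * Real.exp (A * u) * Real.exp (-(c' * t)) ≤ K * Real.exp (K * u) * Real.exp (-(c * t)) := by
  rw [mul_assoc, mul_assoc]
  refine mul_le_mul h1 (mul_le_mul ?_ ?_ (Real.exp_pos _).le (Real.exp_pos _).le) (by positivity) hK
  · rw [Real.exp_le_exp]
    exact mul_le_mul_of_nonneg_right h1 hu.le
  · rw [Real.exp_le_exp]
    have := mul_le_mul_of_nonneg_right h2 ht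
    linarith

theorem bb_bound {β : ℝ} (h0 : 0 < β) (h1 : β < Real.pi / 3) {u w : ℝ} (hu : 0 < u) (hw : 0 < w) :
    |bb β u w| ≤ 2 * CK β * Real.exp (2 * nu β * u) * Real.exp (-(2 * nu β * w)) := by
  obtain ⟨n1, n2, n3⟩ := nu_pos h0 h1
  have hc : 0 < 2 * nu β := by linarith
  have hC := CK_pos h0 h1
  have a1 : KK β (u - w) ≤ CK β * (Real.exp (2 * nu β * u) * Real.exp (-(2 * nu β * w))) := by
    refine (KK_le h0 h1 _).trans (mul_le_mul_of_nonneg_left ?_ hC.le)
    have := exp_abs_shift (c := 2 * nu β) (u := u) (s := -w) hc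
    rw [abs_neg, abs_of_pos hu, abs_of_pos hw] at this
    have e : -w + u = u - w := by ring
    rwa [e] at this
  have a2 : KK β (u + w) ≤ CK β * (Real.exp (2 * nu β * u) * Real.exp (-(2 * nu β * w))) := by
    refine (KK_le h0 h1 _).trans (mul_le_mul_of_nonneg_left ?_ hC.le)
    have := exp_abs_shift (c := 2 * nu β) (u := u) (s := w) hc
    rw [abs_of_pos hu, abs_of_pos hw] at this
    rwa [add_comm w u] at this
  have p1 := KK_pos h0 h1 (u - w)
  have p2 := KK_pos h0 h1 (u + w)
  unfold bb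
  rw [abs_le]
  have e : 2 * CK β * Real.exp (2 * nu β * u) * Real.exp (-(2 * nu β * w))
      = 2 * (CK β * (Real.exp (2 * nu β * u) * Real.exp (-(2 * nu β * w)))) := by ring
  rw [e]
  constructor <;> linarith

theorem DD_bound {β : ℝ} (h0 : 0 < β) (h1 : β < Real.pi / 3) : ∃ K c : ℝ, 0 < K ∧ 0 < c ∧
    ∀ u : ℝ, 0 < u → ∀ x : ℂ, |Sw β u x| ≤ K * Real.exp (K * u) * Real.exp (-(c * ‖x‖)) ∧
      |DD β 1 u x| ≤ K * Real.exp (K * u) * Real.exp (-(c * ‖x‖)) ∧
      |DD β I u x| ≤ K * Real.exp (K * u) * Real.exp (-(c * ‖x‖)) := by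
  obtain ⟨hs, hc⟩ := trig_pos h0 h1
  obtain ⟨C, c, hc0, hC⟩ := w1b β h0 h1
  obtain ⟨K, hK⟩ : ∃ K : ℝ, K = |C| + 1 := ⟨_, rfl⟩
  obtain ⟨d, hd⟩ : ∃ d : ℝ, d = min c (Real.cos β) := ⟨_, rfl⟩
  have hCK : C ≤ K := by rw [hK]; have := le_abs_self C; linarith
  have h1K : 1 ≤ K := by rw [hK]; have := abs_nonneg C; linarith
  have hK0 : 0 < K := by linarith
  have hdc : d ≤ c := by rw [hd]; exact min_le_left _ _
  have hdc' : d ≤ Real.cos β := by rw [hd]; exact min_le_right _ _
  have hd0 : 0 < d := by rw [hd]; exact lt_min hc0 hc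
  refine ⟨K, d, hK0, hd0, fun u hu x => ?_⟩
  obtain ⟨b1, b2, b3, b4, b5⟩ := hC u hu
  have hx := norm_nonneg x
  have hpos : 0 ≤ K * Real.exp (K * u) * Real.exp (-(d * ‖x‖)) := by positivity
  have m1 : C * Real.exp (C * u) * Real.exp (-(c * ‖x‖)) ≤ K * Real.exp (K * u) * Real.exp (-(d * ‖x‖)) :=
    mono_bound hCK hdc hu hx hK0.le
  have m2 : Real.exp u * Real.exp (-(Real.cos β * ‖x‖)) ≤ K * Real.exp (K * u) * Real.exp (-(d * ‖x‖)) := by
    have := mono_bound h1K hdc' hu hx hK0.le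
    simpa using this
  have m3 : Real.exp (-(Real.cos β * ‖x‖)) ≤ K * Real.exp (K * u) * Real.exp (-(d * ‖x‖)) := by
    refine le_trans ?_ m2
    have h2 : 1 ≤ Real.exp u := Real.one_le_exp hu.le
    have h3 := Real.exp_pos (-(Real.cos β * ‖x‖))
    nlinarith only [h2, h3]
  by_cases him : x.im ≤ 0
  · have e1 : Sw β u x = 0 := Sw_P3 him
    have e2 : DD β 1 u x = 0 := by unfold DD; rw [if_pos him]
    have e3 : DD β I u x = 0 := by unfold DD; rw [if_pos him]
    rw [e1, e2, e3, abs_zero]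
    exact ⟨hpos, hpos, hpos⟩
  · by_cases hW : x ∈ W1 β
    · have hA := AA_pos_of_mem h0 h1 hW
      have e1 : Sw β u x = Sc β u x := Sw_P1 h0 h1 hu ⟨hW.1.le, hW.2.le⟩
      have key : ∀ v : ℂ, ‖v‖ = 1 → |DD β v u x| ≤ K * Real.exp (K * u) * Real.exp (-(d * ‖x‖)) := by
        intro v hv
        have e2 : DD β v u x = fderiv ℝ (Sc β u) x v := by
          unfold DD
          rw [if_neg him, if_pos hW, (Sc_fderiv h0 h1 hu hA).fderiv, ContinuousLinearMap.comp_apply,
            JJ_fderiv (Fw_adm h0 h1 hu) hA]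
        rw [e2]
        have h3 := ContinuousLinearMap.le_opNorm (fderiv ℝ (Sc β u) x) v
        rw [hv, mul_one, Real.norm_eq_abs] at h3
        exact h3.trans ((b4 x hW).trans m1)
      refine ⟨?_, key 1 (by simp), key I (by simp)⟩
      rw [e1]
      exact (b3 x (subset_closure hW)).trans m1
    · have hP2 : x ∈ P2 β := by
        refine ⟨(not_le.1 him).le, ?_⟩
        by_contra h
        push Not at h
        exact hW ⟨not_le.1 him, h⟩
      obtain ⟨d1, d2⟩ := dEE_bound h0 h1 hu hP2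
      have e2 : ∀ v, DD β v u x = dEE u x v := by
        intro v
        unfold DD
        rw [if_neg him, if_neg hW]
      rw [Sw_P2 hP2, e2, e2]
      exact ⟨(EE_bound h0 h1 hP2).trans m3, d1.trans m2, d2.trans m2⟩

/-- the wedge function has all properties -/
theorem wedge (hG : GrbStatement) : WedgeStatement := by
  intro β h0 h1
  obtain ⟨n1, n2, n3⟩ := nu_pos h0 h1
  obtain ⟨hs, hc⟩ := trig_pos h0 h1
  obtain ⟨K, c, hK, hc0, hb⟩ := DD_bound h0 h1
  have hCK := CK_pos h0 h1
  have hn : 0 < 2 * nu β := by linarith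
  obtain ⟨g, hg⟩ : ∃ g : ℝ → ℂ → ℂ, g = fun u x => ((DD β 1 u x : ℝ) : ℂ) + ((DD β I u x : ℝ) : ℂ) * I := ⟨_, rfl⟩
  have mg : Measurable (Function.uncurry g) := by
    have e : Function.uncurry g = fun p : ℝ × ℂ => ((Function.uncurry (DD β 1) p : ℝ) : ℂ)
        + ((Function.uncurry (DD β I) p : ℝ) : ℂ) * I := by
      rw [hg]; rfl
    rw [e]
    exact (Complex.measurable_ofReal.comp (meas_DD β 1)).add
      ((Complex.measurable_ofReal.comp (meas_DD β I)).mul_const I)
  have gb : ∀ u, 0 < u → ∀ x, ‖g u x‖ ≤ (2 * K) * Real.exp ((2 * K) * u) * Real.exp (-(c * ‖x‖)) := by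
    intro u hu x
    obtain ⟨q1, q2, q3⟩ := hb u hu x
    rw [hg]
    simp only []
    refine (norm_add_le _ _).trans ?_
    rw [norm_mul, norm_I, mul_one, Complex.norm_real, Complex.norm_real, Real.norm_eq_abs, Real.norm_eq_abs]
    have h3 : Real.exp (K * u) ≤ Real.exp ((2 * K) * u) := by
      rw [Real.exp_le_exp]; nlinarith only [hK, hu]
    have h4 := mul_le_mul_of_nonneg_left h3 hK.le
    have h5 := mul_le_mul_of_nonneg_right h4 (Real.exp_pos (-(c * ‖x‖))).le
    linarith
  have memS : ∀ u, 0 < u → MemLp (Sw β u) 2 volume := by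
    intro u hu
    refine memLp_of_decay (M := K * Real.exp (K * u)) ?_ hc0 fun x => ?_
    · exact ((meas_Sw β).comp (measurable_prodMk_left (x := u))).aestronglyMeasurable
    · rw [Real.norm_eq_abs]; exact (hb u hu x).1
  have mgu : ∀ u, Measurable (g u) := fun u => mg.comp (measurable_prodMk_left (x := u))
  have memg : ∀ u, 0 < u → MemLp (g u) 2 volume := fun u hu =>
    memLp_of_decay (M := (2 * K) * Real.exp ((2 * K) * u)) (mgu u).aestronglyMeasurable hc0 (gb u hu)
  have hgrad : ∀ u, 0 < u → Grad (Sw β u) (g u) := by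
    intro u hu
    obtain ⟨L, hL⟩ := Sw_lipschitz h0 h1 hu
    have e : (fun x => ((lineDeriv ℝ (Sw β u) x 1 : ℝ) : ℂ) + ((lineDeriv ℝ (Sw β u) x I : ℝ) : ℂ) * I)
        =ᵐ[volume] g u := by
      filter_upwards [lineDeriv_Sw h0 h1 hu 1, lineDeriv_Sw h0 h1 hu I] with x hx1 hx2
      rw [hx1, hx2, hg]
    exact grad_congr (hG.2.2.2.1 (Sw β u) L hL (memS u hu) ((memg u hu).ae_eq e.symm)) e
  refine ⟨meas_Sw β, ⟨g, 2 * K, c, hc0, mg, hgrad, gb⟩, ⟨K, c, hc0, fun u hu x => (hb u hu x).1⟩, ?_,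
    ?_, ?_, ?_, ?_⟩
  · -- decay to the right
    obtain ⟨A, hA⟩ : ∃ A : ℝ, A = ∫ w in Set.Ioi (0 : ℝ), Real.exp (-(2 * nu β * w)) := ⟨_, rfl⟩
    have hA0 : 0 ≤ A := by rw [hA]; exact integral_nonneg fun _ => (Real.exp_pos _).le
    have hint : IntegrableOn (fun w : ℝ => Real.exp (-(2 * nu β * w))) (Ioi 0) := by
      have := exp_neg_integrableOn_Ioi 0 hn
      simpa [neg_mul] using this
    refine ⟨2 * CK β * A + 2 * nu β, fun u hu x hre => ?_⟩
    by_cases him : x.im ≤ 0
    · rw [Sw_P3 him, abs_zero]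
      positivity
    · have him' : 0 < x.im := not_le.1 him
      have hP : x ∈ P1 β := ⟨him'.le, add_nonneg (mul_nonneg hre hs.le) (mul_nonneg him'.le hc.le)⟩
      rw [Sw_P1 h0 h1 hu hP, expansion h0 h1 hu hre him'.le, ← Real.norm_eq_abs]
      have hb2 : Integrable (fun w : ℝ => 2 * CK β * Real.exp (2 * nu β * u) * Real.exp (-x.re)
          * Real.exp (-(2 * nu β * w))) (volume.restrict (Ioi 0)) := hint.const_mul _
      refine (norm_integral_le_of_norm_le hb2 ?_).trans ?_
      · refine (ae_restrict_iff' measurableSet_Ioi).2 (Eventually.of_forall fun w hw => ?_)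
        have hw' : 0 < w := hw
        rw [norm_mul, Real.norm_eq_abs, Real.norm_eq_abs]
        have h3 : |dec w x| ≤ Real.exp (-x.re) := by
          unfold dec
          rw [abs_mul, abs_of_pos (Real.exp_pos _)]
          calc _ ≤ Real.exp (-x.re) * 1 := by
                refine mul_le_mul ?_ (Real.abs_sin_le_one _) (abs_nonneg _) (Real.exp_pos _).le
                rw [Real.exp_le_exp]
                have := Real.one_le_cosh w
                nlinarith only [hre, this]
            _ = _ := mul_one _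
        calc _ ≤ (2 * CK β * Real.exp (2 * nu β * u) * Real.exp (-(2 * nu β * w))) * Real.exp (-x.re) :=
              mul_le_mul (bb_bound h0 h1 hu hw') h3 (abs_nonneg _) (by positivity)
          _ = _ := by ring
      · rw [integral_const_mul, ← hA]
        have h5 : Real.exp (2 * nu β * u) ≤ Real.exp ((2 * CK β * A + 2 * nu β) * u) := by
          rw [Real.exp_le_exp]
          refine mul_le_mul_of_nonneg_right ?_ hu.le
          have : 0 ≤ 2 * CK β * A := by positivity
          linarith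
        calc _ = (2 * CK β * A) * Real.exp (2 * nu β * u) * Real.exp (-x.re) := by ring
          _ ≤ _ := by
            refine mul_le_mul_of_nonneg_right (mul_le_mul ?_ h5 (Real.exp_pos _).le (by positivity))
              (Real.exp_pos _).le
            linarith
  · intro u hu x him
    exact Sw_P3 him
  · intro u hu x him hW
    refine Sw_P2 ⟨him.le, ?_⟩
    by_contra h
    push Not at h
    exact hW ⟨him, h⟩
  · intro u hu φ hφ
    obtain ⟨p1, p2, p3⟩ := hφ
    obtain ⟨C', c', hc', hC'⟩ := w1b β h0 h1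
    obtain ⟨b1, b2, b3, b4, b5⟩ := hC' u hu
    obtain ⟨i1, i2, i3⟩ := ibp2 (W1_open β) b2 p1 p2 p3 1
    obtain ⟨j1, j2, j3⟩ := ibp2 (W1_open β) b2 p1 p2 p3 I
    have iφ : Integrable fun x => Sc β u x * φ x :=
      integrable_loc (W1_open β) b2.continuousOn p1.continuous p2 p3
    have hzero : ∀ x, x ∉ tsupport φ → φ x = 0 ∧ lap φ x = 0 := by
      intro x hx
      have e0 : φ =ᶠ[𝓝 x] 0 := notMem_tsupport_iff_eventuallyEq.1 hx
      refine ⟨e0.eq_of_nhds, ?_⟩
      have h2 : ∀ v, (fun y => fderiv ℝ φ y v) =ᶠ[𝓝 x] fun _ => 0 := by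
        intro v
        have := e0.fderiv (𝕜 := ℝ)
        filter_upwards [this] with y hy
        rw [hy]
        simp
      unfold lap
      rw [(h2 1).fderiv_eq, (h2 I).fderiv_eq]
      simp
    have e1 : (∫ x, Sw β u x * (φ x - lap φ x)) = ∫ x, (Sc β u x * φ x - Sc β u x * lap φ x) := by
      refine integral_congr_ae (Eventually.of_forall fun x => ?_)
      simp only []
      by_cases hx : x ∈ tsupport φ
      · have hW := p3 hx
        rw [Sw_P1 h0 h1 hu ⟨hW.1.le, hW.2.le⟩]
        ring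
      · obtain ⟨z1, z2⟩ := hzero x hx
        rw [z1, z2]
        ring
    have il : Integrable fun x => Sc β u x * lap φ x := by
      refine (i2.add j2).congr (Eventually.of_forall fun x => ?_)
      simp only [Pi.add_apply, lap]
      ring
    have e2 : (∫ x, Sc β u x * lap φ x) = ∫ x, Sc β u x * φ x := by
      have e3 : (∫ x, Sc β u x * lap φ x)
          = (∫ x, Sc β u x * fderiv ℝ (fun y => fderiv ℝ φ y 1) x 1)
            + ∫ x, Sc β u x * fderiv ℝ (fun y => fderiv ℝ φ y I) x I := by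
        rw [← integral_add i2 j2]
        refine integral_congr_ae (Eventually.of_forall fun x => ?_)
        simp only [lap]
        ring
      rw [e3, i1, j1, ← integral_add i3 j3]
      refine integral_congr_ae (Eventually.of_forall fun x => ?_)
      simp only []
      by_cases hx : x ∈ tsupport φ
      · have := b5 x (p3 hx)
        unfold lap at this
        linear_combination φ x * this
      · rw [(hzero x hx).1]
        ring
    rw [e1, integral_sub iφ il, e2, sub_self]
  · intro u hu x hre him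
    have hP : x ∈ P1 β := ⟨him.le, add_nonneg (mul_nonneg hre.le hs.le) (mul_nonneg him.le hc.le)⟩
    rw [Sw_P1 h0 h1 hu hP]
    exact expansion h0 h1 hu hre.le him.le

end Pool.Agent.H16F.H81
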