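import Pool.Agent.Helper16_Fine.Stmt2

/-!
Facts on the diffraction kernel.
-/

namespace Pool.Agent.H16F.H81

open MeasureTheory Complex Filter Topology Set Pool.Agent.H16F

theorem nu_pos {β : ℝ} (h0 : 0 < β) (h1 : β < Real.pi / 3) :
    1 / 2 < nu β ∧ nu β < 3 / 4 ∧ 2 * nu β * (Real.pi - β) = Real.pi := by
  have hp := Real.pi_pos
  have ha : 0 < Real.pi - β := by linarith
  unfold nu
  refine ⟨?_, ?_, ?_⟩
  · rw [div_lt_div_iff₀ (by norm_num) (by positivity)]
    linarith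
  · rw [div_lt_div_iff₀ (by positivity) (by norm_num)]
    linarith
  · field_simp

theorem nu_trig {β : ℝ} (h0 : 0 < β) (h1 : β < Real.pi / 3) :
    Real.cos (2 * Real.pi * nu β) < 0 ∧ -1 < Real.cos (2 * Real.pi * nu β) ∧
      Real.sin (2 * Real.pi * nu β) < 0 ∧
      Real.cos (2 * nu β * β) = -Real.cos (2 * Real.pi * nu β) ∧
      Real.sin (2 * nu β * β) = -Real.sin (2 * Real.pi * nu β) := by
  obtain ⟨n1, n2, n3⟩ := nu_pos h0 h1
  have hp := Real.pi_pos
  have a1 : Real.pi < 2 * Real.pi * nu β := by nlinarith only [h0, n3, n1]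
  have a2 : 2 * Real.pi * nu β < Real.pi + Real.pi / 2 := by nlinarith only [h1, h0, n2]
  have hc : Real.cos (2 * Real.pi * nu β) < 0 :=
    Real.cos_neg_of_pi_div_two_lt_of_lt (by linarith) a2
  have hs : Real.sin (2 * Real.pi * nu β) < 0 := by
    have h2 : Real.sin (2 * Real.pi * nu β - Real.pi) = -Real.sin (2 * Real.pi * nu β) :=
      Real.sin_sub_pi _
    have h3 : 0 < Real.sin (2 * Real.pi * nu β - Real.pi) :=
      Real.sin_pos_of_pos_of_lt_pi (by linarith) (by linarith)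
    linarith
  have e : 2 * nu β * β = 2 * Real.pi * nu β - Real.pi := by linear_combination (-1 : ℝ) * n3
  refine ⟨hc, ?_, hs, ?_, ?_⟩
  · nlinarith only [hs, Real.sin_sq_add_cos_sq (2 * Real.pi * nu β)]
  · rw [e, Real.cos_sub_pi]
  · rw [e, Real.sin_sub_pi]

/-- the constant of the kernel -/
noncomputable def kc (β : ℝ) : ℝ := nu β / Real.pi * (-Real.sin (2 * Real.pi * nu β))

theorem kc_pos {β : ℝ} (h0 : 0 < β) (h1 : β < Real.pi / 3) : 0 < kc β := by
  obtain ⟨n1, n2, n3⟩ := nu_pos h0 h1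
  obtain ⟨c1, c2, c3, c4, c5⟩ := nu_trig h0 h1
  unfold kc
  have hp := Real.pi_pos
  exact mul_pos (div_pos (by linarith) hp) (by linarith)

/-- the kernel, for complex arguments -/
noncomputable def Kc (β : ℝ) (z : ℂ) : ℂ :=
  (kc β : ℂ) / (Complex.cosh (2 * nu β * z) - (Real.cos (2 * Real.pi * nu β) : ℂ))

theorem Kc_ofReal (β z : ℝ) : Kc β (z : ℂ) = ((KK β z : ℝ) : ℂ) := by
  unfold Kc KK kc
  push_cast
  rfl

theorem KK_eq (β z : ℝ) : KK β z = kc β / (Real.cosh (2 * nu β * z) - Real.cos (2 * Real.pi * nu β)) := rfl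

theorem KK_even (β z : ℝ) : KK β (-z) = KK β z := by
  rw [KK_eq, KK_eq, mul_neg, Real.cosh_neg]

theorem KK_abs (β z : ℝ) : KK β |z| = KK β z := by
  rcases abs_cases z with h | h
  · rw [h.1]
  · rw [h.1, KK_even]

theorem cosh_re_im (z : ℂ) : Complex.cosh z
    = ((Real.cosh z.re * Real.cos z.im : ℝ) : ℂ) + ((Real.sinh z.re * Real.sin z.im : ℝ) : ℂ) * I := by
  conv_lhs => rw [← Complex.re_add_im z]
  rw [Complex.cosh_add, Complex.cosh_mul_I, Complex.sinh_mul_I]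
  push_cast
  ring

theorem sinh_re_im (z : ℂ) : Complex.sinh z
    = ((Real.sinh z.re * Real.cos z.im : ℝ) : ℂ) + ((Real.cosh z.re * Real.sin z.im : ℝ) : ℂ) * I := by
  conv_lhs => rw [← Complex.re_add_im z]
  rw [Complex.sinh_add, Complex.cosh_mul_I, Complex.sinh_mul_I]
  push_cast
  ring

theorem norm_cosh_sub {z : ℂ} {c : ℝ} (hc : c < 0) (hc1 : -1 ≤ c) (hz : 0 ≤ Real.cos z.im) :
    -c * Real.cosh z.re ≤ ‖Complex.cosh z - (c : ℂ)‖ := by
  refine abs_le_of_sq_le_sq' ?_ (norm_nonneg _) |>.2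
  rw [Complex.sq_norm, Complex.normSq_apply, cosh_re_im]
  simp only [sub_re, add_re, ofReal_re, mul_re, I_re, mul_zero, ofReal_im, I_im, mul_one, sub_self,
    add_zero, sub_im, add_im, mul_im, zero_add, sub_zero]
  have h1 := Real.cosh_sq z.re
  have h2 := Real.sin_sq_add_cos_sq z.im
  have h3 := Real.one_le_cosh z.re
  have h4 : 0 ≤ -c * (Real.cosh z.re * Real.cos z.im) := by
    have : 0 ≤ -c := by linarith
    positivity
  have h5 : Real.sinh z.re ^ 2 = Real.cosh z.re ^ 2 - 1 := by linarith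
  have h6 : Real.sin z.im ^ 2 = 1 - Real.cos z.im ^ 2 := by linarith
  have h7 : 0 ≤ (1 - c ^ 2) * (Real.cosh z.re ^ 2 - 1) :=
    mul_nonneg (by nlinarith only [hc1, hc]) (by nlinarith only [h1])
  have h8 : (Real.cosh z.re * Real.cos z.im - c) * (Real.cosh z.re * Real.cos z.im - c)
      + Real.sinh z.re * Real.sin z.im * (Real.sinh z.re * Real.sin z.im)
      = Real.cosh z.re ^ 2 - 1 + Real.cos z.im ^ 2 - 2 * c * (Real.cosh z.re * Real.cos z.im) + c ^ 2 := by
    have : Real.sinh z.re * Real.sin z.im * (Real.sinh z.re * Real.sin z.im)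
        = Real.sinh z.re ^ 2 * Real.sin z.im ^ 2 := by ring
    rw [this, h5, h6]
    ring
  rw [h8]
  linarith only [h4, h7, sq_nonneg (Real.cos z.im)]

theorem exp_abs_le_cosh (x : ℝ) : Real.exp |x| / 2 ≤ Real.cosh x := by
  rw [← Real.cosh_abs, Real.cosh_eq]
  have := Real.exp_pos (-|x|)
  linarith

/-- the constant in the bound of the kernel -/
noncomputable def CK (β : ℝ) : ℝ := 2 * kc β / (-Real.cos (2 * Real.pi * nu β))

theorem CK_pos {β : ℝ} (h0 : 0 < β) (h1 : β < Real.pi / 3) : 0 < CK β := by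
  obtain ⟨c1, c2, c3, c4, c5⟩ := nu_trig h0 h1
  have := kc_pos h0 h1
  exact div_pos (by linarith) (by linarith)

theorem den_ne {β : ℝ} (h0 : 0 < β) (h1 : β < Real.pi / 3) {z : ℂ}
    (hz : 0 ≤ Real.cos (2 * nu β * z.im)) :
    Complex.cosh (2 * nu β * z) - (Real.cos (2 * Real.pi * nu β) : ℂ) ≠ 0 := by
  obtain ⟨c1, c2, c3, c4, c5⟩ := nu_trig h0 h1
  have him : (2 * (nu β : ℂ) * z).im = 2 * nu β * z.im := by
    have : (2 * (nu β : ℂ)) = ((2 * nu β : ℝ) : ℂ) := by push_cast; rfl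
    rw [this, Complex.im_ofReal_mul]
  have := norm_cosh_sub (z := 2 * nu β * z) c1 c2.le (by rw [him]; exact hz)
  intro h
  rw [h, norm_zero] at this
  have h2 := Real.cosh_pos (2 * (nu β : ℂ) * z).re
  nlinarith only [this, c1, h2]

theorem Kc_norm {β : ℝ} (h0 : 0 < β) (h1 : β < Real.pi / 3) {z : ℂ}
    (hz : 0 ≤ Real.cos (2 * nu β * z.im)) :
    ‖Kc β z‖ ≤ CK β * Real.exp (-(2 * nu β * |z.re|)) := by
  obtain ⟨n1, n2, n3⟩ := nu_pos h0 h1
  obtain ⟨c1, c2, c3, c4, c5⟩ := nu_trig h0 h1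
  have hk := kc_pos h0 h1
  have e2 : (2 * (nu β : ℂ)) = ((2 * nu β : ℝ) : ℂ) := by push_cast; rfl
  have him : (2 * (nu β : ℂ) * z).im = 2 * nu β * z.im := by rw [e2, Complex.im_ofReal_mul]
  have hre : (2 * (nu β : ℂ) * z).re = 2 * nu β * z.re := by rw [e2, Complex.re_ofReal_mul]
  have h2 := norm_cosh_sub (z := 2 * nu β * z) c1 c2.le (by rw [him]; exact hz)
  rw [hre] at h2
  have h3 := exp_abs_le_cosh (2 * nu β * z.re)
  have h4 : |2 * nu β * z.re| = 2 * nu β * |z.re| := by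
    rw [abs_mul, abs_of_pos (by linarith : 0 < 2 * nu β)]
  rw [h4] at h3
  have h5 : 0 < Real.exp (2 * nu β * |z.re|) := Real.exp_pos _
  have h6 : -Real.cos (2 * Real.pi * nu β) * (Real.exp (2 * nu β * |z.re|) / 2)
      ≤ ‖Complex.cosh (2 * nu β * z) - (Real.cos (2 * Real.pi * nu β) : ℂ)‖ :=
    le_trans (mul_le_mul_of_nonneg_left h3 (by linarith)) h2
  unfold Kc CK
  rw [norm_div, Complex.norm_real, Real.norm_eq_abs, abs_of_pos hk, Real.exp_neg]
  have h7 : 0 < -Real.cos (2 * Real.pi * nu β) := by linarith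
  calc kc β / ‖Complex.cosh (2 * nu β * z) - (Real.cos (2 * Real.pi * nu β) : ℂ)‖
      ≤ kc β / (-Real.cos (2 * Real.pi * nu β) * (Real.exp (2 * nu β * |z.re|) / 2)) :=
        div_le_div_of_nonneg_left hk.le (by positivity) h6
    _ = _ := by field_simp

theorem Kc_diff {β : ℝ} (h0 : 0 < β) (h1 : β < Real.pi / 3) {z : ℂ}
    (hz : 0 ≤ Real.cos (2 * nu β * z.im)) : DifferentiableAt ℂ (Kc β) z := by
  unfold Kc
  refine (differentiableAt_const _).div ?_ (den_ne h0 h1 hz)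
  fun_prop

theorem KK_pos {β : ℝ} (h0 : 0 < β) (h1 : β < Real.pi / 3) (z : ℝ) : 0 < KK β z := by
  obtain ⟨c1, c2, c3, c4, c5⟩ := nu_trig h0 h1
  rw [KK_eq]
  have := Real.cosh_pos (2 * nu β * z)
  exact div_pos (kc_pos h0 h1) (by linarith)

theorem KK_le {β : ℝ} (h0 : 0 < β) (h1 : β < Real.pi / 3) (z : ℝ) :
    KK β z ≤ CK β * Real.exp (-(2 * nu β * |z|)) := by
  have := Kc_norm h0 h1 (z := z) (by simp)
  rw [Kc_ofReal, Complex.norm_real, Real.norm_eq_abs, abs_of_pos (KK_pos h0 h1 z), ofReal_re] at this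
  exact this

theorem KK_anti {β : ℝ} (h0 : 0 < β) (h1 : β < Real.pi / 3) {x y : ℝ} (h : |x| ≤ |y|) :
    KK β y ≤ KK β x := by
  obtain ⟨n1, n2, n3⟩ := nu_pos h0 h1
  obtain ⟨c1, c2, c3, c4, c5⟩ := nu_trig h0 h1
  rw [KK_eq, KK_eq]
  have h2 : Real.cosh (2 * nu β * x) ≤ Real.cosh (2 * nu β * y) := by
    rw [Real.cosh_le_cosh, abs_mul (2 * nu β) x, abs_mul (2 * nu β) y]
    exact mul_le_mul_of_nonneg_left h (abs_nonneg _)
  have h3 := Real.cosh_pos (2 * nu β * x)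
  exact div_le_div_of_nonneg_left (kc_pos h0 h1).le (by linarith) (by linarith)

theorem KK_lt {β : ℝ} (h0 : 0 < β) (h1 : β < Real.pi / 3) {x y : ℝ} (h : |x| < |y|) :
    KK β y < KK β x := by
  obtain ⟨n1, n2, n3⟩ := nu_pos h0 h1
  obtain ⟨c1, c2, c3, c4, c5⟩ := nu_trig h0 h1
  rw [KK_eq, KK_eq]
  have h2 : Real.cosh (2 * nu β * x) < Real.cosh (2 * nu β * y) := by
    rw [Real.cosh_lt_cosh, abs_mul (2 * nu β) x, abs_mul (2 * nu β) y]
    have h3 : 0 < |2 * nu β| := abs_pos.2 (by intro h3; linarith)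
    exact mul_lt_mul_of_pos_left h h3
  have h3 := Real.cosh_pos (2 * nu β * x)
  exact div_lt_div_of_pos_left (kc_pos h0 h1) (by linarith) (by linarith)

theorem KK_cont {β : ℝ} (h0 : 0 < β) (h1 : β < Real.pi / 3) : Continuous (KK β) := by
  obtain ⟨c1, c2, c3, c4, c5⟩ := nu_trig h0 h1
  have : KK β = fun z => kc β / (Real.cosh (2 * nu β * z) - Real.cos (2 * Real.pi * nu β)) := by
    funext z; exact KK_eq β z
  rw [this]
  refine Continuous.div (by fun_prop) (by fun_prop) fun z => ?_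
  have := Real.cosh_pos (2 * nu β * z)
  linarith

theorem integrable_exp_abs {c : ℝ} (hc : 0 < c) : Integrable fun w : ℝ => Real.exp (-(c * |w|)) := by
  have h1 : IntegrableOn (fun w : ℝ => Real.exp (-(c * |w|))) (Ioi 0) := by
    have : IntegrableOn (fun w : ℝ => Real.exp (-c * w)) (Ioi 0) := exp_neg_integrableOn_Ioi 0 hc
    refine this.congr_fun (fun w hw => ?_) measurableSet_Ioi
    simp only []
    rw [abs_of_pos hw, neg_mul]
  have h2 : IntegrableOn (fun w : ℝ => Real.exp (-(c * |w|))) (Iic 0) := by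
    have : IntegrableOn (fun w : ℝ => Real.exp (c * w)) (Iic 0) := integrableOn_exp_mul_Iic hc 0
    refine this.congr_fun (fun w hw => ?_) measurableSet_Iic
    simp only []
    rw [abs_of_nonpos hw]
    congr 1
    ring
  have := h2.union h1
  rwa [Iic_union_Ioi, integrableOn_univ] at this

end Pool.Agent.H16F.H81
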