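import Mathlib

/-!
Shift of a contour in a horizontal strip, with and without a simple pole.
-/

namespace Pool.Agent.H16F.H81

open MeasureTheory Complex Filter Topology Set

/-- shift of the contour in a strip -/
theorem strip_shift {f : ℂ → ℂ} {a b R0 : ℝ} (hab : a ≤ b)
    (hf : ∀ z : ℂ, a ≤ z.im → z.im ≤ b → DifferentiableAt ℂ f z)
    (h1 : Integrable fun w : ℝ => f (w + a * I)) (h2 : Integrable fun w : ℝ => f (w + b * I))
    {g : ℝ → ℝ} (hg : Tendsto g atTop (𝓝 0))
    (hb : ∀ z : ℂ, a ≤ z.im → z.im ≤ b → R0 ≤ |z.re| → ‖f z‖ ≤ g |z.re|) :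
    ∫ w : ℝ, f (w + a * I) = ∫ w : ℝ, f (w + b * I) := by
  have t1 : Tendsto (fun R : ℝ => ∫ w in (-R)..R, f (w + a * I)) atTop
      (𝓝 (∫ w : ℝ, f (w + a * I))) :=
    intervalIntegral_tendsto_integral h1 tendsto_neg_atTop_atBot tendsto_id
  have t2 : Tendsto (fun R : ℝ => ∫ w in (-R)..R, f (w + b * I)) atTop
      (𝓝 (∫ w : ℝ, f (w + b * I))) :=
    intervalIntegral_tendsto_integral h2 tendsto_neg_atTop_atBot tendsto_id
  have side : ∀ s : ℝ, (|s| = 1) → Tendsto (fun R : ℝ => ∫ y in a..b, f ((s * R : ℝ) + y * I)) atTop (𝓝 0) := by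
    intro s hs
    have h0 : Tendsto (fun R : ℝ => g R * |b - a|) atTop (𝓝 0) := by
      simpa using hg.mul_const |b - a|
    refine squeeze_zero_norm' ?_ h0
    filter_upwards [eventually_ge_atTop (max R0 0)] with R hR
    refine intervalIntegral.norm_integral_le_of_norm_le_const ?_
    intro y hy
    rw [uIoc_of_le hab] at hy
    have hre : ((((s * R : ℝ) : ℂ) + y * I)).re = s * R := by simp
    have him : ((((s * R : ℝ) : ℂ) + y * I)).im = y := by simp
    have habs : |s * R| = R := by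
      rw [abs_mul, hs, one_mul, abs_of_nonneg (le_trans (le_max_right _ _) hR)]
    have := hb (((s * R : ℝ) : ℂ) + y * I) (by rw [him]; exact hy.1.le) (by rw [him]; exact hy.2)
      (by rw [hre, habs]; exact le_trans (le_max_left _ _) hR)
    rwa [hre, habs] at this
  have key : ∀ R : ℝ, (∫ w in (-R)..R, f (w + a * I)) - (∫ w in (-R)..R, f (w + b * I))
      = I * (∫ y in a..b, f ((((-1) * R : ℝ) : ℂ) + y * I)) - I * ∫ y in a..b, f (((1 * R : ℝ) : ℂ) + y * I) := by
    intro R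
    have := integral_boundary_rect_eq_zero_of_differentiableOn f ((-R : ℝ) + a * I) ((R : ℝ) + b * I)
      (by
        intro z hz
        have him : z.im ∈ Set.uIcc a b := by simpa using hz.2
        rw [uIcc_of_le hab] at him
        exact (hf z him.1 him.2).differentiableWithinAt)
    simp only [add_re, ofReal_re, mul_re, I_re, mul_zero, ofReal_im, I_im, mul_one, sub_self,
      add_zero, add_im, mul_im, zero_add, smul_eq_mul] at this
    simp only [neg_mul, one_mul]
    linear_combination this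
  have l1 := t1.sub t2
  have l2 := ((side (-1) (by simp)).const_mul I).sub ((side 1 (by simp)).const_mul I)
  have l3 : Tendsto (fun R : ℝ => (∫ w in (-R)..R, f (w + a * I)) - (∫ w in (-R)..R, f (w + b * I)))
      atTop (𝓝 (I * 0 - I * 0)) := by
    refine l2.congr fun R => (key R).symm
  have := tendsto_nhds_unique l1 l3
  simp only [mul_zero, sub_self] at this
  exact sub_eq_zero.1 this

/-- integral of the Poisson kernel -/
theorem integral_poisson {δ : ℝ} (hδ : 0 < δ) :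
    Integrable (fun t : ℝ => δ / (t ^ 2 + δ ^ 2)) ∧ ∫ t : ℝ, δ / (t ^ 2 + δ ^ 2) = Real.pi := by
  have e : (fun t : ℝ => δ / (t ^ 2 + δ ^ 2)) = fun t : ℝ => δ⁻¹ * (1 + (t / δ) ^ 2)⁻¹ := by
    funext t
    have h1 : 1 + (t / δ) ^ 2 ≠ 0 := by positivity
    have h2 : t ^ 2 + δ ^ 2 ≠ 0 := by positivity
    field_simp
    ring
  constructor
  · rw [e]
    exact (Integrable.comp_div integrable_inv_one_add_sq hδ.ne').const_mul _
  · rw [e, integral_const_mul, Measure.integral_comp_div (fun t : ℝ => (1 + t ^ 2)⁻¹) δ,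
      integral_univ_inv_one_add_sq, abs_of_pos hδ]
    simp [hδ.ne']

theorem integral_odd {f : ℝ → ℝ} (h : ∀ x, f (-x) = -f x) : ∫ x, f x = 0 := by
  have := integral_neg_eq_self f volume
  simp only [h, integral_neg] at this
  linarith

/-- the comparison function on the lower line -/
theorem cmp_lower {a x y : ℝ} (h : a < y) :
    Integrable (fun w : ℝ => (2 * (y - a : ℝ) * I : ℂ) /
      ((((w : ℂ) + a * I) - (x + y * I)) * (((w : ℂ) + a * I) - (x + (2 * a - y : ℝ) * I)))) ∧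
    ∫ w : ℝ, (2 * (y - a : ℝ) * I : ℂ) /
      ((((w : ℂ) + a * I) - (x + y * I)) * (((w : ℂ) + a * I) - (x + (2 * a - y : ℝ) * I)))
      = 2 * Real.pi * I := by
  have hδ : 0 < y - a := sub_pos.2 h
  obtain ⟨p1, p2⟩ := integral_poisson hδ
  have e : (fun w : ℝ => (2 * (y - a : ℝ) * I : ℂ) /
      ((((w : ℂ) + a * I) - (x + y * I)) * (((w : ℂ) + a * I) - (x + (2 * a - y : ℝ) * I))))
      = fun w : ℝ => (2 * I) * (((fun t : ℝ => (y - a) / (t ^ 2 + (y - a) ^ 2)) (w - x) : ℝ) : ℂ) := by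
    funext w
    have h2 : (w - x) ^ 2 + (y - a) ^ 2 ≠ 0 := by positivity
    have h3 : ((((w : ℂ) + a * I) - (x + y * I)) * (((w : ℂ) + a * I) - (x + (2 * a - y : ℝ) * I)))
        = (((w - x) ^ 2 + (y - a) ^ 2 : ℝ) : ℂ) := by
      push_cast
      linear_combination (-(a : ℂ) ^ 2 + 2 * a * y - y ^ 2) * I_sq
    rw [h3]
    push_cast
    ring
  rw [e]
  refine ⟨(((p1.comp_sub_right x).ofReal).const_mul _), ?_⟩
  have j1 : ∫ w : ℝ, (fun t : ℝ => (y - a) / (t ^ 2 + (y - a) ^ 2)) (w - x) = Real.pi :=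
    (integral_sub_right_eq_self (fun t : ℝ => (y - a) / (t ^ 2 + (y - a) ^ 2)) x).trans p2
  rw [integral_const_mul, integral_complex_ofReal, j1]
  ring

/-- the comparison function on the upper line -/
theorem cmp_upper {a b x y : ℝ} (h : a < y) (h' : y < b) :
    Integrable (fun w : ℝ => (2 * (y - a : ℝ) * I : ℂ) /
      ((((w : ℂ) + b * I) - (x + y * I)) * (((w : ℂ) + b * I) - (x + (2 * a - y : ℝ) * I)))) ∧
    ∫ w : ℝ, (2 * (y - a : ℝ) * I : ℂ) /
      ((((w : ℂ) + b * I) - (x + y * I)) * (((w : ℂ) + b * I) - (x + (2 * a - y : ℝ) * I)))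
      = 0 := by
  obtain ⟨c, hc⟩ : ∃ c : ℝ, c = b - y := ⟨_, rfl⟩
  obtain ⟨d, hd⟩ : ∃ d : ℝ, d = b - (2 * a - y) := ⟨_, rfl⟩
  have hc0 : 0 < c := by linarith
  have hd0 : 0 < d := by linarith
  have hcd : c < d := by linarith
  obtain ⟨p1, p2⟩ := integral_poisson hc0
  obtain ⟨q1, q2⟩ := integral_poisson hd0
  have r1 : Integrable (fun t : ℝ => t * (d ^ 2 - c ^ 2) / ((t ^ 2 + c ^ 2) * (t ^ 2 + d ^ 2))) := by
    refine (p1.const_mul ((d ^ 2 - c ^ 2) / (2 * d * c))).mono' ?_ ?_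
    · refine Continuous.aestronglyMeasurable ?_
      refine Continuous.div (by fun_prop) (by fun_prop) ?_
      intro t
      positivity
    · refine Eventually.of_forall fun t => ?_
      have e1 : 0 < t ^ 2 + c ^ 2 := by positivity
      have e2 : 0 < t ^ 2 + d ^ 2 := by positivity
      have e3 : 0 < d ^ 2 - c ^ 2 := by nlinarith
      have e4 : |t| / (t ^ 2 + d ^ 2) ≤ 1 / (2 * d) := by
        rw [div_le_div_iff₀ e2 (by positivity)]
        nlinarith [sq_nonneg (|t| - d), sq_abs t]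
      calc ‖t * (d ^ 2 - c ^ 2) / ((t ^ 2 + c ^ 2) * (t ^ 2 + d ^ 2))‖
          = (|t| / (t ^ 2 + d ^ 2)) * ((d ^ 2 - c ^ 2) / (t ^ 2 + c ^ 2)) := by
            rw [Real.norm_eq_abs, abs_div, abs_mul, abs_mul, abs_of_pos e1, abs_of_pos e2,
              abs_of_pos e3]
            field_simp
        _ ≤ (1 / (2 * d)) * ((d ^ 2 - c ^ 2) / (t ^ 2 + c ^ 2)) := by
            refine mul_le_mul_of_nonneg_right e4 (by positivity)
        _ = _ := by
            field_simp
  have r2 : ∫ t : ℝ, t * (d ^ 2 - c ^ 2) / ((t ^ 2 + c ^ 2) * (t ^ 2 + d ^ 2)) = 0 := by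
    refine integral_odd fun t => ?_
    ring
  have e : (fun w : ℝ => (2 * (y - a : ℝ) * I : ℂ) /
      ((((w : ℂ) + b * I) - (x + y * I)) * (((w : ℂ) + b * I) - (x + (2 * a - y : ℝ) * I))))
      = fun w : ℝ => (((fun t : ℝ => t * (d ^ 2 - c ^ 2) / ((t ^ 2 + c ^ 2) * (t ^ 2 + d ^ 2))) (w - x) : ℝ) : ℂ)
        - I * ((((fun t : ℝ => c / (t ^ 2 + c ^ 2)) (w - x) : ℝ) : ℂ)
          - (((fun t : ℝ => d / (t ^ 2 + d ^ 2)) (w - x) : ℝ) : ℂ)) := by
    funext w
    obtain ⟨t, ht⟩ : ∃ t : ℝ, t = w - x := ⟨_, rfl⟩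
    have e1 : (((w : ℂ) + b * I) - (x + y * I)) = (t : ℂ) + c * I := by
      rw [ht, hc]; push_cast; ring
    have e2 : (((w : ℂ) + b * I) - (x + (2 * a - y : ℝ) * I)) = (t : ℂ) + d * I := by
      rw [ht, hd]; push_cast; ring
    have e3 : (2 * (y - a : ℝ) * I : ℂ) = (d - c) * I := by
      rw [hd, hc]; push_cast; ring
    have n1 : (t : ℂ) + c * I ≠ 0 := by
      intro h0
      have := congrArg Complex.im h0
      simp at this
      exact hc0.ne' this
    have n2 : (t : ℂ) + d * I ≠ 0 := by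
      intro h0
      have := congrArg Complex.im h0
      simp at this
      exact hd0.ne' this
    have m1 : ((t : ℂ) ^ 2 + c ^ 2) ≠ 0 := by
      have : ((t ^ 2 + c ^ 2 : ℝ) : ℂ) ≠ 0 := by
        rw [Ne, Complex.ofReal_eq_zero]; positivity
      push_cast at this; exact this
    have m2 : ((t : ℂ) ^ 2 + d ^ 2) ≠ 0 := by
      have : ((t ^ 2 + d ^ 2 : ℝ) : ℂ) ≠ 0 := by
        rw [Ne, Complex.ofReal_eq_zero]; positivity
      push_cast at this; exact this
    have f1 : ((t : ℂ) + c * I)⁻¹ = ((t : ℂ) - c * I) / ((t : ℂ) ^ 2 + c ^ 2) := by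
      rw [eq_div_iff m1, inv_mul_eq_iff_eq_mul₀ n1]
      linear_combination ((c : ℂ) ^ 2) * I_sq
    have f2 : ((t : ℂ) + d * I)⁻¹ = ((t : ℂ) - d * I) / ((t : ℂ) ^ 2 + d ^ 2) := by
      rw [eq_div_iff m2, inv_mul_eq_iff_eq_mul₀ n2]
      linear_combination ((d : ℂ) ^ 2) * I_sq
    have g1 : ((d : ℂ) - c) * I / (((t : ℂ) + c * I) * ((t : ℂ) + d * I))
        = ((t : ℂ) + c * I)⁻¹ - ((t : ℂ) + d * I)⁻¹ := by
      field_simp
      ring
    simp only []
    rw [e1, e2, e3, g1, f1, f2, ← ht]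
    push_cast
    field_simp
    ring
  rw [e]
  clear e
  generalize hA : (fun t : ℝ => t * (d ^ 2 - c ^ 2) / ((t ^ 2 + c ^ 2) * (t ^ 2 + d ^ 2))) = A
  generalize hB : (fun t : ℝ => c / (t ^ 2 + c ^ 2)) = B
  generalize hC : (fun t : ℝ => d / (t ^ 2 + d ^ 2)) = C
  rw [hA] at r1
  rw [hB] at p1
  rw [hC] at q1
  have i1 : Integrable (fun w : ℝ => ((A (w - x) : ℝ) : ℂ)) := (r1.comp_sub_right x).ofReal
  have i2 : Integrable (fun w : ℝ => ((B (w - x) : ℝ) : ℂ)) := (p1.comp_sub_right x).ofReal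
  have i3 : Integrable (fun w : ℝ => ((C (w - x) : ℝ) : ℂ)) := (q1.comp_sub_right x).ofReal
  have i4 : Integrable (fun w : ℝ => I * (((B (w - x) : ℝ) : ℂ) - ((C (w - x) : ℝ) : ℂ))) :=
    (i2.sub i3).const_mul I
  refine ⟨i1.sub i4, ?_⟩
  rw [integral_sub i1 i4, integral_const_mul, integral_sub i2 i3,
    integral_complex_ofReal, integral_complex_ofReal, integral_complex_ofReal,
    integral_sub_right_eq_self A x, integral_sub_right_eq_self B x,
    integral_sub_right_eq_self C x]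
  have r2' : ∫ w, A w = 0 := by rw [← hA]; exact r2
  have p2' : ∫ w, B w = Real.pi := by rw [← hB]; exact p2
  have q2' : ∫ w, C w = Real.pi := by rw [← hC]; exact q2
  rw [r2', p2', q2']
  simp

/-- one simple pole in a strip -/
theorem strip_residue {F φ : ℂ → ℂ} {a b R0 x y : ℝ} (hap : a < y) (hpb : y < b)
    (hφ : ∀ z : ℂ, a ≤ z.im → z.im ≤ b → DifferentiableAt ℂ φ z)
    (hF : ∀ z : ℂ, a ≤ z.im → z.im ≤ b → z ≠ x + y * I → F z * (z - (x + y * I)) = φ z)
    (h1 : Integrable fun w : ℝ => F (w + a * I)) (h2 : Integrable fun w : ℝ => F (w + b * I))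
    {g : ℝ → ℝ} (hg : Tendsto g atTop (𝓝 0))
    (hb : ∀ z : ℂ, a ≤ z.im → z.im ≤ b → R0 ≤ |z.re| → ‖F z‖ ≤ g |z.re|) :
    (∫ w : ℝ, F (w + a * I)) - ∫ w : ℝ, F (w + b * I) = 2 * Real.pi * I * φ (x + y * I) := by
  obtain ⟨p, hp⟩ : ∃ p : ℂ, p = x + y * I := ⟨_, rfl⟩
  obtain ⟨p', hp'⟩ : ∃ p' : ℂ, p' = x + (2 * a - y : ℝ) * I := ⟨_, rfl⟩
  have hpre : p.re = x := by rw [hp]; simp
  have hpim : p.im = y := by rw [hp]; simp
  have hpre' : p'.re = x := by
    rw [hp']
    simp only [add_re, ofReal_re, mul_re, I_re, mul_zero, ofReal_im, I_im, mul_one, sub_self, add_zero]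
  have hpim' : p'.im = 2 * a - y := by
    rw [hp']
    simp only [add_im, ofReal_im, mul_im, ofReal_re, I_im, mul_one, I_re, mul_zero, add_zero, zero_add]
  have hpp : p - p' = 2 * (y - a : ℝ) * I := by
    rw [hp, hp']; push_cast; ring
  obtain ⟨l1, l2⟩ := cmp_lower (x := x) hap
  obtain ⟨u1, u2⟩ := cmp_upper (x := x) hap hpb
  rw [← hpp, ← hp, ← hp'] at l1 l2 u1 u2
  rw [← hp] at hF ⊢
  set q : ℂ → ℂ := fun z => (p - p') / ((z - p) * (z - p')) with hq
  set ψ : ℂ → ℂ := fun z => φ z - φ p * ((p - p') / (z - p')) with hψ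
  have ne' : ∀ z : ℂ, a ≤ z.im → z - p' ≠ 0 := by
    intro z hz h0
    have := congrArg Complex.im h0
    rw [sub_im, hpim', zero_im] at this
    linarith
  have hψp : ψ p = 0 := by
    have := ne' p (by rw [hpim]; exact hap.le)
    simp only [hψ]
    rw [div_self this]
    ring
  have dψ : ∀ z : ℂ, a ≤ z.im → z.im ≤ b → DifferentiableAt ℂ ψ z := by
    intro z hz1 hz2
    exact (hφ z hz1 hz2).sub (((differentiableAt_const (p - p')).div
      (differentiableAt_id.sub_const p') (ne' z hz1)).const_mul (φ p))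
  set H : ℂ → ℂ := dslope ψ p with hH
  have hHne : ∀ z : ℂ, a ≤ z.im → z.im ≤ b → z ≠ p → H z = F z - φ p * q z := by
    intro z hz1 hz2 hzp
    have hz0 : z - p ≠ 0 := sub_ne_zero.2 hzp
    have := ne' z hz1
    rw [hH, dslope_of_ne _ hzp, slope_def_module, hψp]
    simp only [hψ, hq, smul_eq_mul, sub_zero]
    rw [← hF z hz1 hz2 hzp]
    field_simp
  have dH : ∀ z : ℂ, a ≤ z.im → z.im ≤ b → DifferentiableAt ℂ H z := by
    intro z hz1 hz2
    by_cases hzp : z = p
    · have hs : {z : ℂ | a < z.im ∧ z.im < b} ∈ 𝓝 p := by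
        refine IsOpen.mem_nhds ?_ ⟨by rw [hpim]; exact hap, by rw [hpim]; exact hpb⟩
        exact (isOpen_lt continuous_const continuous_im).inter (isOpen_lt continuous_im continuous_const)
      have : DifferentiableOn ℂ H {z : ℂ | a < z.im ∧ z.im < b} :=
        (differentiableOn_dslope hs).2 fun z hz => (dψ z hz.1.le hz.2.le).differentiableWithinAt
      rw [hzp]
      exact this.differentiableAt hs
    · exact (differentiableAt_dslope_of_ne hzp).2 (dψ z hz1 hz2)
  have line : ∀ s : ℝ, a ≤ s → s ≤ b → s ≠ y → (fun w : ℝ => H (w + s * I))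
      = fun w : ℝ => F (w + s * I) - φ p * q (w + s * I) := by
    intro s hs1 hs2 hs
    funext w
    have him : (((w : ℂ) + s * I)).im = s := by simp
    refine hHne _ (by rw [him]; exact hs1) (by rw [him]; exact hs2) ?_
    intro h0
    have := congrArg Complex.im h0
    rw [him, hpim] at this
    exact hs this
  have la := line a le_rfl (hap.trans hpb).le hap.ne
  have lb := line b (hap.trans hpb).le le_rfl hpb.ne'
  have hg' : Tendsto (fun R : ℝ => g R + ‖φ p‖ * ‖p - p'‖ / (R - |x|)) atTop (𝓝 0) := by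
    have : Tendsto (fun R : ℝ => ‖φ p‖ * ‖p - p'‖ / (R - |x|)) atTop (𝓝 0) := by
      refine Tendsto.div_atTop tendsto_const_nhds ?_
      exact tendsto_atTop_add_const_right _ _ tendsto_id
    simpa using hg.add this
  have main := strip_shift (f := H) (a := a) (b := b) (R0 := max R0 (|x| + 1)) (hap.trans hpb).le dH
    (by rw [la]; exact h1.sub (l1.const_mul _)) (by rw [lb]; exact h2.sub (u1.const_mul _)) hg'
    (by
      intro z hz1 hz2 hz3
      have hR : R0 ≤ |z.re| := le_trans (le_max_left _ _) hz3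
      have hx : |x| + 1 ≤ |z.re| := le_trans (le_max_right _ _) hz3
      have hzp : z ≠ p := by
        intro h0
        rw [h0, hpre] at hx
        linarith
      rw [hHne z hz1 hz2 hzp]
      refine le_trans (norm_sub_le _ _) (add_le_add (hb z hz1 hz2 hR) ?_)
      have k1 : |z.re| - |x| ≤ ‖z - p‖ := by
        refine le_trans ?_ (Complex.abs_re_le_norm _)
        rw [sub_re, hpre]
        exact abs_sub_abs_le_abs_sub _ _
      have k2 : |z.re| - |x| ≤ ‖z - p'‖ := by
        refine le_trans ?_ (Complex.abs_re_le_norm _)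
        rw [sub_re, hpre']
        exact abs_sub_abs_le_abs_sub _ _
      have k3 : (0 : ℝ) < |z.re| - |x| := by linarith
      have k4 : |z.re| - |x| ≤ ‖z - p‖ * ‖z - p'‖ := by nlinarith
      rw [norm_mul, hq]
      simp only []
      rw [norm_div, norm_mul, mul_div_assoc]
      refine mul_le_mul_of_nonneg_left ?_ (norm_nonneg _)
      exact div_le_div_of_nonneg_left (norm_nonneg _) k3 k4)
  rw [la, lb, integral_sub h1 (l1.const_mul _), integral_sub h2 (u1.const_mul _),
    integral_const_mul, integral_const_mul, l2, u2] at main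
  linear_combination main

end Pool.Agent.H16F.H81
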