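import Pool.Agent.Helper81_Fine.Kern
import Pool.Agent.Helper81_Fine.Strip

/-!
Boundary values of the Sommerfeld integral, and its expansion to the right.
-/

namespace Pool.Agent.H16F.H81

open MeasureTheory Complex Filter Topology Set Pool.Agent.H16F

/-- the integrand of the Sommerfeld integral as an analytic function -/
noncomputable def fS (β u : ℝ) (x : ℂ) (z : ℂ) : ℂ :=
  Complex.exp (-((x.re : ℂ) * Complex.cosh z + I * (x.im : ℂ) * Complex.sinh z))
    * (Kc β (z + u) - Kc β (z - u))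

theorem Ex_eq (β w : ℝ) (x : ℂ) : Ex β w x
    = Complex.exp (-((x.re : ℂ) * Complex.cosh (w + ((-((Real.pi - β) / 2) : ℝ) : ℂ) * I)
      + I * (x.im : ℂ) * Complex.sinh (w + ((-((Real.pi - β) / 2) : ℝ) : ℂ) * I))) := by
  unfold Ex
  have : (w : ℂ) - I * ((Real.pi - β) / 2 : ℝ) = w + ((-((Real.pi - β) / 2) : ℝ) : ℂ) * I := by
    push_cast; ring
  rw [this]

theorem Kc_line {β : ℝ} (h0 : 0 < β) (h1 : β < Real.pi / 3) (w : ℝ) :
    Kc β (w + ((-((Real.pi - β) / 2) : ℝ) : ℂ) * I)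
      = ((nu β * Real.sin (2 * Real.pi * nu β) / Real.pi : ℝ) : ℂ) *
        (1 / ((Real.cos (2 * Real.pi * nu β) : ℂ) + I * (Real.sinh (2 * nu β * w) : ℂ))) := by
  obtain ⟨n1, n2, n3⟩ := nu_pos h0 h1
  have e1 : (2 * (nu β : ℂ)) * (w + ((-((Real.pi - β) / 2) : ℝ) : ℂ) * I)
      = ((2 * nu β * w : ℝ) : ℂ) + ((-(Real.pi / 2) : ℝ) : ℂ) * I := by
    have : 2 * nu β * (-((Real.pi - β) / 2)) = -(Real.pi / 2) := by linear_combination (-1 / 2 : ℝ) * n3
    rw [← this]
    push_cast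
    ring
  have e2 : Complex.cosh ((2 * (nu β : ℂ)) * (w + ((-((Real.pi - β) / 2) : ℝ) : ℂ) * I))
      = -(I * (Real.sinh (2 * nu β * w) : ℂ)) := by
    rw [e1, cosh_re_im]
    simp
    ring
  unfold Kc kc
  rw [e2]
  have e3 : -(I * (Real.sinh (2 * nu β * w) : ℂ)) - (Real.cos (2 * Real.pi * nu β) : ℂ)
      = -((Real.cos (2 * Real.pi * nu β) : ℂ) + I * (Real.sinh (2 * nu β * w) : ℂ)) := by ring
  rw [e3, div_neg]
  push_cast
  ring

theorem Fw_eq {β : ℝ} (h0 : 0 < β) (h1 : β < Real.pi / 3) (u w : ℝ) :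
    Fw β u w = Kc β (w + ((-((Real.pi - β) / 2) : ℝ) : ℂ) * I + u)
      - Kc β (w + ((-((Real.pi - β) / 2) : ℝ) : ℂ) * I - u) := by
  have e1 : (w : ℂ) + ((-((Real.pi - β) / 2) : ℝ) : ℂ) * I + u
      = ((w + u : ℝ) : ℂ) + ((-((Real.pi - β) / 2) : ℝ) : ℂ) * I := by push_cast; ring
  have e2 : (w : ℂ) + ((-((Real.pi - β) / 2) : ℝ) : ℂ) * I - u
      = ((w - u : ℝ) : ℂ) + ((-((Real.pi - β) / 2) : ℝ) : ℂ) * I := by push_cast; ring
  rw [e1, e2, Kc_line h0 h1, Kc_line h0 h1]
  unfold Fw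
  ring

theorem integrand_eq {β : ℝ} (h0 : 0 < β) (h1 : β < Real.pi / 3) (u w : ℝ) (x : ℂ) :
    Ex β w x * Fw β u w = fS β u x (w + ((-((Real.pi - β) / 2) : ℝ) : ℂ) * I) := by
  rw [Ex_eq, Fw_eq h0 h1]
  rfl

/-- norm of the exponential -/
theorem norm_exp_le {x z : ℂ} (h : 0 ≤ x.re * Real.cos z.im - x.im * Real.sin z.im) :
    ‖Complex.exp (-((x.re : ℂ) * Complex.cosh z + I * (x.im : ℂ) * Complex.sinh z))‖ ≤ 1 := by
  rw [Complex.norm_exp, Real.exp_le_one_iff, cosh_re_im, sinh_re_im]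
  simp only [neg_re, add_re, mul_re, ofReal_re, ofReal_im, I_re, I_im, add_im, mul_im]
  ring_nf
  have := Real.cosh_pos z.re
  nlinarith [mul_nonneg this.le h]

theorem exp_abs_shift {c u s : ℝ} (hc : 0 < c) : Real.exp (-(c * |s + u|))
    ≤ Real.exp (c * |u|) * Real.exp (-(c * |s|)) := by
  rw [← Real.exp_add, Real.exp_le_exp]
  have : |s| ≤ |s + u| + |u| := by
    have := abs_sub (s + u) u
    rwa [add_sub_cancel_right] at this
  nlinarith

theorem fS_bound {β : ℝ} (h0 : 0 < β) (h1 : β < Real.pi / 3) {u : ℝ} (hu : 0 < u) {x z : ℂ}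
    (hz : 0 ≤ Real.cos (2 * nu β * z.im))
    (h : 0 ≤ x.re * Real.cos z.im - x.im * Real.sin z.im) :
    ‖fS β u x z‖ ≤ 2 * CK β * Real.exp (2 * nu β * u) * Real.exp (-(2 * nu β * |z.re|)) := by
  obtain ⟨n1, n2, n3⟩ := nu_pos h0 h1
  have hC := CK_pos h0 h1
  have b1 : ‖Kc β (z + u)‖ ≤ CK β * (Real.exp (2 * nu β * u) * Real.exp (-(2 * nu β * |z.re|))) := by
    refine (Kc_norm h0 h1 (by simpa using hz)).trans ?_
    refine mul_le_mul_of_nonneg_left ?_ hC.le
    have := exp_abs_shift (c := 2 * nu β) (u := u) (s := z.re) (by linarith)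
    rw [abs_of_pos hu] at this
    simpa using this
  have b2 : ‖Kc β (z - u)‖ ≤ CK β * (Real.exp (2 * nu β * u) * Real.exp (-(2 * nu β * |z.re|))) := by
    refine (Kc_norm h0 h1 (by simpa using hz)).trans ?_
    refine mul_le_mul_of_nonneg_left ?_ hC.le
    have := exp_abs_shift (c := 2 * nu β) (u := -u) (s := z.re) (by linarith)
    rw [abs_neg, abs_of_pos hu] at this
    simpa [sub_eq_add_neg] using this
  unfold fS
  rw [norm_mul]
  calc _ ≤ 1 * (‖Kc β (z + u)‖ + ‖Kc β (z - u)‖) :=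
        mul_le_mul (norm_exp_le h) (norm_sub_le _ _) (norm_nonneg _) zero_le_one
    _ ≤ _ := by
        rw [one_mul]
        linarith

theorem fS_diff {β : ℝ} (h0 : 0 < β) (h1 : β < Real.pi / 3) {u : ℝ} {x z : ℂ}
    (hz : 0 ≤ Real.cos (2 * nu β * z.im)) : DifferentiableAt ℂ (fS β u x) z := by
  unfold fS
  refine DifferentiableAt.mul (by fun_prop) (DifferentiableAt.sub ?_ ?_)
  · exact DifferentiableAt.fun_comp' z (g := Kc β) (f := fun z : ℂ => z + (u : ℂ))
      (Kc_diff h0 h1 (by simpa using hz)) (by fun_prop)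
  · exact DifferentiableAt.fun_comp' z (g := Kc β) (f := fun z : ℂ => z - (u : ℂ))
      (Kc_diff h0 h1 (by simpa using hz)) (by fun_prop)

/-- integrability on a line -/
theorem integrable_line {f : ℂ → ℂ} {s C c : ℝ} (hc : 0 < c)
    (hd : ∀ w : ℝ, DifferentiableAt ℂ f (w + s * I))
    (hb : ∀ w : ℝ, ‖f (w + s * I)‖ ≤ C * Real.exp (-(c * |w|))) :
    Integrable fun w : ℝ => f (w + s * I) := by
  refine ((integrable_exp_abs hc).const_mul C).mono' ?_ (Eventually.of_forall hb)
  refine Continuous.aestronglyMeasurable ?_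
  rw [continuous_iff_continuousAt]
  intro w
  have h1 : ContinuousAt (fun w : ℝ => ((w : ℂ) + s * I)) w := by fun_prop
  exact ContinuousAt.comp (f := fun w : ℝ => ((w : ℂ) + s * I)) (hd w).continuousAt h1

theorem tendsto_bound {C c : ℝ} (hc : 0 < c) :
    Tendsto (fun R : ℝ => C * Real.exp (-(c * R))) atTop (𝓝 0) := by
  have h1 : Tendsto (fun R : ℝ => -(c * R)) atTop atBot := by
    exact tendsto_neg_atTop_atBot.comp (tendsto_id.const_mul_atTop hc)
  simpa using (Real.tendsto_exp_atBot.comp h1).const_mul C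

theorem expansion {β : ℝ} (h0 : 0 < β) (h1 : β < Real.pi / 3) {u : ℝ} (hu : 0 < u) {x : ℂ}
    (hre : 0 ≤ x.re) (him : 0 ≤ x.im) : Sc β u x = ∫ w in Set.Ioi (0 : ℝ), bb β u w * dec w x := by
  obtain ⟨n1, n2, n3⟩ := nu_pos h0 h1
  have hp := Real.pi_pos
  have hc : 0 < 2 * nu β := by linarith
  obtain ⟨a, ha⟩ : ∃ a : ℝ, a = -((Real.pi - β) / 2) := ⟨_, rfl⟩
  have ha0 : a ≤ 0 := by rw [ha]; linarith
  have hna : 2 * nu β * a = -(Real.pi / 2) := by rw [ha]; linear_combination (-1 / 2 : ℝ) * n3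
  have hcos : ∀ y : ℝ, a ≤ y → y ≤ 0 → 0 ≤ Real.cos (2 * nu β * y) := by
    intro y hy1 hy2
    refine Real.cos_nonneg_of_mem_Icc ⟨?_, ?_⟩
    · rw [← hna]
      exact mul_le_mul_of_nonneg_left hy1 hc.le
    · have := mul_nonneg hc.le (neg_nonneg.2 hy2)
      linarith
  have hx : ∀ y : ℝ, a ≤ y → y ≤ 0 → 0 ≤ x.re * Real.cos y - x.im * Real.sin y := by
    intro y hy1 hy2
    have c1 : 0 ≤ Real.cos y := Real.cos_nonneg_of_mem_Icc ⟨by rw [ha] at hy1; linarith, by linarith⟩
    have c2 : Real.sin y ≤ 0 := Real.sin_nonpos_of_nonpos_of_neg_pi_le hy2 (by rw [ha] at hy1; linarith)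
    linarith only [mul_nonneg hre c1, mul_nonneg him (neg_nonneg.2 c2)]
  have hbd : ∀ z : ℂ, a ≤ z.im → z.im ≤ 0 → ‖fS β u x z‖
      ≤ 2 * CK β * Real.exp (2 * nu β * u) * Real.exp (-(2 * nu β * |z.re|)) := fun z hz1 hz2 =>
    fS_bound h0 h1 hu (hcos _ hz1 hz2) (hx _ hz1 hz2)
  have I1 : Integrable fun w : ℝ => fS β u x (w + a * I) :=
    integrable_line (C := 2 * CK β * Real.exp (2 * nu β * u)) hc
      (fun w => fS_diff h0 h1 (by simpa using hcos a le_rfl ha0))
      (fun w => by simpa using hbd (w + a * I) (by simp) (by simpa using ha0))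
  have I2 : Integrable fun w : ℝ => fS β u x (w + (0 : ℝ) * I) :=
    integrable_line (C := 2 * CK β * Real.exp (2 * nu β * u)) hc
      (fun w => fS_diff h0 h1 (by simp))
      (fun w => by simpa using hbd (w + (0 : ℝ) * I) (by simpa using ha0) (by simp))
  have shift := strip_shift (f := fS β u x) (R0 := 0) ha0
    (fun z hz1 hz2 => fS_diff h0 h1 (hcos _ hz1 hz2)) I1 I2
    (tendsto_bound (C := 2 * CK β * Real.exp (2 * nu β * u)) hc) (fun z hz1 hz2 _ => hbd z hz1 hz2)
  have eI : (∫ w : ℝ, Ex β w x * Fw β u w) = ∫ w : ℝ, fS β u x (w + a * I) := by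
    refine integral_congr_ae (Eventually.of_forall fun w => ?_)
    simp only []
    rw [integrand_eq h0 h1, ha]
  have I3 : Integrable fun w : ℝ => fS β u x w := by simpa using I2
  have e3 : (∫ w : ℝ, fS β u x (w + (0 : ℝ) * I)) = ∫ w : ℝ, fS β u x w := by simp
  have e4 : (∫ w : ℝ, fS β u x w)
      = ∫ w in Set.Ioi (0 : ℝ), (fS β u x w + fS β u x (-w : ℝ)) := by
    rw [← intervalIntegral.integral_Iic_add_Ioi (b := 0) I3.integrableOn I3.integrableOn]
    have := integral_comp_neg_Ioi 0 (fun w : ℝ => fS β u x w)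
    rw [neg_zero] at this
    have I4 : IntegrableOn (fun w : ℝ => fS β u x (-w : ℝ)) (Ioi 0) := (I3.comp_neg).integrableOn
    rw [integral_add I3.integrableOn I4, this, add_comm]
  have e5 : ∀ w : ℝ, fS β u x w + fS β u x (-w : ℝ) = 2 * I * ((bb β u w * dec w x : ℝ) : ℂ) := by
    intro w
    unfold fS bb dec
    have k1 : Kc β ((w : ℂ) + u) = ((KK β (u + w) : ℝ) : ℂ) := by
      rw [← Kc_ofReal]; congr 1; push_cast; ring
    have k2 : Kc β ((w : ℂ) - u) = ((KK β (u - w) : ℝ) : ℂ) := by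
      rw [← KK_even, ← Kc_ofReal]; congr 1; push_cast; ring
    have k3 : Kc β (((-w : ℝ) : ℂ) + u) = ((KK β (u - w) : ℝ) : ℂ) := by
      rw [← Kc_ofReal]; congr 1; push_cast; ring
    have k4 : Kc β (((-w : ℝ) : ℂ) - u) = ((KK β (u + w) : ℝ) : ℂ) := by
      rw [← KK_even, ← Kc_ofReal]; congr 1; push_cast; ring
    rw [k1, k2, k3, k4]
    have x1 : Complex.exp (-((x.re : ℂ) * Complex.cosh (w : ℂ) + I * (x.im : ℂ) * Complex.sinh (w : ℂ)))
        = Complex.exp (-(x.re * Complex.cosh w)) *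
          (Complex.cos (x.im * Complex.sinh w) - Complex.sin (x.im * Complex.sinh w) * I) := by
      have x0 : Complex.cos (x.im * Complex.sinh w) - Complex.sin (x.im * Complex.sinh w) * I
          = Complex.exp (-(x.im * Complex.sinh w) * I) := by
        rw [Complex.exp_mul_I, Complex.cos_neg, Complex.sin_neg]
        ring
      rw [x0, ← Complex.exp_add]
      congr 1
      ring
    have x2 : Complex.exp (-((x.re : ℂ) * Complex.cosh ((-w : ℝ) : ℂ)
          + I * (x.im : ℂ) * Complex.sinh ((-w : ℝ) : ℂ)))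
        = Complex.exp (-(x.re * Complex.cosh w)) *
          (Complex.cos (x.im * Complex.sinh w) + Complex.sin (x.im * Complex.sinh w) * I) := by
      rw [← Complex.exp_mul_I, ← Complex.exp_add]
      congr 1
      push_cast
      rw [Complex.cosh_neg, Complex.sinh_neg]
      ring
    rw [x1, x2]
    push_cast
    ring
  have e6 : (∫ w : ℝ, Ex β w x * Fw β u w)
      = 2 * I * ((∫ w in Set.Ioi (0 : ℝ), bb β u w * dec w x : ℝ) : ℂ) := by
    rw [eI, shift, e3, e4]
    simp only [e5]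
    rw [integral_const_mul, integral_complex_ofReal]
  unfold Sc
  rw [e6]
  have : (2 * I : ℂ) ≠ 0 := by simp
  rw [mul_div_cancel_left₀ _ this, ofReal_re]

/-- the integrand at the upper boundary of the wedge -/
noncomputable def fB (β r s : ℝ) (z : ℂ) : ℂ :=
  Complex.exp (-((r : ℂ) * Complex.cosh z)) * Kc β (z + s - ((Real.pi - β : ℝ) : ℂ) * I)

/-- the denominator -/
noncomputable def dB (β s : ℝ) (z : ℂ) : ℂ :=
  Complex.cosh (2 * nu β * (z + s)) + (Real.cos (2 * Real.pi * nu β) : ℂ)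

theorem Kc_dB {β : ℝ} (h0 : 0 < β) (h1 : β < Real.pi / 3) (s : ℝ) (z : ℂ) :
    Kc β (z + s - ((Real.pi - β : ℝ) : ℂ) * I) = -(kc β : ℂ) / dB β s z := by
  obtain ⟨n1, n2, n3⟩ := nu_pos h0 h1
  have n4 : (2 : ℂ) * nu β * (Real.pi - β) = Real.pi := by exact_mod_cast congrArg Complex.ofReal n3
  have e1 : (2 * (nu β : ℂ)) * (z + s - ((Real.pi - β : ℝ) : ℂ) * I)
      = 2 * nu β * (z + s) - Real.pi * I := by
    push_cast
    linear_combination (-I) * n4
  have e2 : Complex.cosh (2 * nu β * (z + s) - Real.pi * I) = -Complex.cosh (2 * nu β * (z + s)) := by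
    rw [Complex.cosh_sub, Complex.cosh_mul_I, Complex.sinh_mul_I, Complex.cos_pi, Complex.sin_pi]
    ring
  unfold Kc dB
  rw [e1, e2]
  have : -Complex.cosh (2 * nu β * (z + s)) - (Real.cos (2 * Real.pi * nu β) : ℂ)
      = -(Complex.cosh (2 * nu β * (z + s)) + (Real.cos (2 * Real.pi * nu β) : ℂ)) := by ring
  rw [this, div_neg, neg_div]

theorem dB_re_im (β s : ℝ) (z : ℂ) : dB β s z
    = ((Real.cosh (2 * nu β * (z.re + s)) * Real.cos (2 * nu β * z.im)
        + Real.cos (2 * Real.pi * nu β) : ℝ) : ℂ)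
      + ((Real.sinh (2 * nu β * (z.re + s)) * Real.sin (2 * nu β * z.im) : ℝ) : ℂ) * I := by
  have e2 : (2 * (nu β : ℂ)) = ((2 * nu β : ℝ) : ℂ) := by push_cast; rfl
  have him : (2 * (nu β : ℂ) * (z + s)).im = 2 * nu β * z.im := by
    rw [e2, Complex.im_ofReal_mul]; simp
  have hre : (2 * (nu β : ℂ) * (z + s)).re = 2 * nu β * (z.re + s) := by
    rw [e2, Complex.re_ofReal_mul]; simp
  unfold dB
  rw [cosh_re_im, him, hre]
  push_cast
  ring

theorem dB_zero {β : ℝ} (h0 : 0 < β) (h1 : β < Real.pi / 3) (s : ℝ) :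
    dB β s (((-s : ℝ) : ℂ) + β * I) = 0 := by
  obtain ⟨c1, c2, c3, c4, c5⟩ := nu_trig h0 h1
  rw [dB_re_im]
  simp [c4]

theorem dB_ne {β : ℝ} (h0 : 0 < β) (h1 : β < Real.pi / 3) {s : ℝ} {z : ℂ} (hz1 : 0 ≤ z.im)
    (hz2 : z.im ≤ (Real.pi - β) / 2) (hz : z ≠ ((-s : ℝ) : ℂ) + β * I) : dB β s z ≠ 0 := by
  obtain ⟨n1, n2, n3⟩ := nu_pos h0 h1
  obtain ⟨c1, c2, c3, c4, c5⟩ := nu_trig h0 h1
  have hp := Real.pi_pos
  have hc : 0 < 2 * nu β := by linarith
  intro h
  rw [dB_re_im] at h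
  have hre := congrArg Complex.re h
  have him := congrArg Complex.im h
  rw [Complex.add_re, Complex.ofReal_re, Complex.re_ofReal_mul, I_re, mul_zero, add_zero,
    Complex.zero_re] at hre
  rw [Complex.add_im, Complex.ofReal_im, Complex.im_ofReal_mul, I_im, mul_one, zero_add,
    Complex.zero_im] at him
  have b1 : 0 ≤ 2 * nu β * z.im := mul_nonneg hc.le hz1
  have b2 : 2 * nu β * z.im ≤ Real.pi / 2 := by
    have := mul_le_mul_of_nonneg_left hz2 hc.le
    have e : 2 * nu β * ((Real.pi - β) / 2) = Real.pi / 2 := by linear_combination (1 / 2 : ℝ) * n3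
    linarith
  rcases mul_eq_zero.1 him with h2 | h2
  · have h3 : 2 * nu β * (z.re + s) = 0 := Real.sinh_eq_zero.1 h2
    rw [h3, Real.cosh_zero, one_mul] at hre
    have h4 : Real.cos (2 * nu β * z.im) = Real.cos (2 * nu β * β) := by rw [c4]; linarith only [hre]
    have h5 : 2 * nu β * β ≤ Real.pi := by nlinarith only [h0, h1, n2]
    have h6 : 2 * nu β * z.im = 2 * nu β * β :=
      Real.injOn_cos ⟨b1, by linarith only [h0, h1, b2]⟩ ⟨by positivity, h5⟩ h4
    have h7 : z.im = β := mul_left_cancel₀ hc.ne' h6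
    have h8 : z.re = -s := by
      have := (mul_eq_zero.1 h3).resolve_left hc.ne'
      linarith only [this]
    apply hz
    rw [← Complex.re_add_im z, h7, h8]
  · have h3 : 2 * nu β * z.im = 0 := by
      by_contra h4
      have h5 : 0 < 2 * nu β * z.im := lt_of_le_of_ne b1 (Ne.symm h4)
      have := Real.sin_pos_of_pos_of_lt_pi h5 (by linarith only [h0, h1, b2])
      linarith only [h2, this]
    rw [h3, Real.cos_zero, mul_one] at hre
    have := Real.one_le_cosh (2 * nu β * (z.re + s))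
    linarith only [c2, hre, this]

theorem dB_far {β : ℝ} (h0 : 0 < β) (h1 : β < Real.pi / 3) {s : ℝ} {z : ℂ}
    (hz : |s| + 2 ≤ |z.re|) : Real.exp (2 * nu β * |z.re + s|) / 4 ≤ ‖dB β s z‖ := by
  obtain ⟨n1, n2, n3⟩ := nu_pos h0 h1
  obtain ⟨c1, c2, c3, c4, c5⟩ := nu_trig h0 h1
  have hc : 0 < 2 * nu β := by linarith
  have e2 : (2 * (nu β : ℂ)) = ((2 * nu β : ℝ) : ℂ) := by push_cast; rfl
  have k1 : |Real.sinh (2 * nu β * (z.re + s))| ≤ ‖Complex.cosh (2 * nu β * (z + s))‖ := by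
    have k0 : |Real.sinh (2 * nu β * (z.re + s))|
        ≤ √(Complex.normSq (Complex.cosh (2 * nu β * (z + s)))) := by
      refine Real.abs_le_sqrt ?_
      have him : (2 * (nu β : ℂ) * (z + s)).im = 2 * nu β * z.im := by
        rw [e2, Complex.im_ofReal_mul]; simp
      have hre : (2 * (nu β : ℂ) * (z + s)).re = 2 * nu β * (z.re + s) := by
        rw [e2, Complex.re_ofReal_mul]; simp
      rw [cosh_re_im, him, hre, Complex.normSq_apply]
      simp only [add_re, ofReal_re, mul_re, I_re, mul_zero, ofReal_im, I_im, mul_one, sub_self,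
        add_zero, add_im, mul_im, zero_add]
      have a1 := Real.cosh_sq (2 * nu β * (z.re + s))
      have a2 := Real.sin_sq_add_cos_sq (2 * nu β * z.im)
      nlinarith only [a1, a2, sq_nonneg (Real.cos (2 * nu β * z.im))]
    rwa [← Complex.sq_norm, Real.sqrt_sq (norm_nonneg _)] at k0
  have k2 : ‖Complex.cosh (2 * nu β * (z + s))‖ - 1 ≤ ‖dB β s z‖ := by
    unfold dB
    have := norm_sub_le_norm_add (Complex.cosh (2 * nu β * (z + s))) (Real.cos (2 * Real.pi * nu β) : ℂ)
    rw [Complex.norm_real, Real.norm_eq_abs, abs_of_neg c1] at this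
    linarith
  have k3 : 2 ≤ |z.re + s| := by
    have : |z.re| ≤ |z.re + s| + |s| := by
      have := abs_sub (z.re + s) s
      rwa [add_sub_cancel_right] at this
    linarith
  obtain ⟨A, hA⟩ : ∃ A : ℝ, A = 2 * nu β * |z.re + s| := ⟨_, rfl⟩
  have k4 : 2 ≤ A := by rw [hA]; nlinarith only [k3, n1]
  have k5 : |Real.sinh (2 * nu β * (z.re + s))| = Real.sinh A := by
    rw [Real.abs_sinh, hA, abs_mul, abs_of_pos hc]
  rw [← hA]
  rw [k5, Real.sinh_eq] at k1
  have k6 : Real.exp (-A) ≤ 1 := Real.exp_le_one_iff.2 (by linarith)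
  have k7 : 6 ≤ Real.exp A := by
    have h3 : Real.exp 2 ≤ Real.exp A := Real.exp_le_exp.2 k4
    have h4 : (2.7 : ℝ) < Real.exp 1 := lt_trans (by norm_num) Real.exp_one_gt_d9
    have h5 : Real.exp 2 = Real.exp 1 * Real.exp 1 := by rw [← Real.exp_add]; norm_num
    nlinarith only [h3, h5, h4]
  linarith

/-- the residue of the denominator, removed -/
noncomputable def eB (β s : ℝ) : ℂ → ℂ := dslope (dB β s) (((-s : ℝ) : ℂ) + β * I)

theorem dB_diff (β s : ℝ) : Differentiable ℂ (dB β s) := by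
  unfold dB
  fun_prop

theorem eB_diff (β s : ℝ) : Differentiable ℂ (eB β s) := by
  rw [← differentiableOn_univ]
  exact (Complex.differentiableOn_dslope univ_mem).2 (dB_diff β s).differentiableOn

theorem eB_same {β : ℝ} (h0 : 0 < β) (h1 : β < Real.pi / 3) (s : ℝ) :
    eB β s (((-s : ℝ) : ℂ) + β * I) = -(2 * nu β * Real.sin (2 * Real.pi * nu β) : ℝ) * I := by
  obtain ⟨c1, c2, c3, c4, c5⟩ := nu_trig h0 h1
  unfold eB
  rw [dslope_same]
  have hd : HasDerivAt (dB β s) (Complex.sinh (2 * nu β * ((((-s : ℝ) : ℂ) + β * I) + s)) * (2 * nu β))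
      (((-s : ℝ) : ℂ) + β * I) := by
    unfold dB
    have h2 : HasDerivAt (fun z : ℂ => 2 * (nu β : ℂ) * (z + s)) (2 * nu β)
        (((-s : ℝ) : ℂ) + β * I) := by
      have := ((hasDerivAt_id (((-s : ℝ) : ℂ) + β * I)).add_const (s : ℂ)).const_mul (2 * (nu β : ℂ))
      simpa using this
    exact (h2.ccosh).add_const _
  rw [hd.deriv]
  have e1 : 2 * (nu β : ℂ) * ((((-s : ℝ) : ℂ) + β * I) + s) = ((2 * nu β * β : ℝ) : ℂ) * I := by
    push_cast; ring
  rw [e1, Complex.sinh_mul_I, ← Complex.ofReal_sin, c5]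
  push_cast
  ring

theorem eB_mul {β : ℝ} (h0 : 0 < β) (h1 : β < Real.pi / 3) (s : ℝ) (z : ℂ) :
    (z - (((-s : ℝ) : ℂ) + β * I)) * eB β s z = dB β s z := by
  have := sub_smul_dslope (dB β s) (((-s : ℝ) : ℂ) + β * I) z
  rw [dB_zero h0 h1, sub_zero, smul_eq_mul] at this
  exact this

theorem eB_ne {β : ℝ} (h0 : 0 < β) (h1 : β < Real.pi / 3) {s : ℝ} {z : ℂ} (hz1 : 0 ≤ z.im)
    (hz2 : z.im ≤ (Real.pi - β) / 2) : eB β s z ≠ 0 := by
  obtain ⟨n1, n2, n3⟩ := nu_pos h0 h1
  obtain ⟨c1, c2, c3, c4, c5⟩ := nu_trig h0 h1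
  by_cases hz : z = ((-s : ℝ) : ℂ) + β * I
  · rw [hz, eB_same h0 h1]
    have : -(2 * nu β * Real.sin (2 * Real.pi * nu β) : ℝ) ≠ 0 := by
      have : 0 < nu β * -Real.sin (2 * Real.pi * nu β) := mul_pos (by linarith) (by linarith only [c3])
      intro h
      linarith only [this, h]
    refine mul_ne_zero ?_ I_ne_zero
    exact_mod_cast this
  · intro h
    have := eB_mul h0 h1 s z
    rw [h, mul_zero] at this
    exact dB_ne h0 h1 hz1 hz2 hz this.symm

theorem fB_residue {β : ℝ} (h0 : 0 < β) (h1 : β < Real.pi / 3) {r : ℝ} (hr : 0 ≤ r) (s : ℝ) :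
    Integrable (fun w : ℝ => fB β r s (w + ((Real.pi - β) / 2 : ℝ) * I)) ∧
    Integrable (fun w : ℝ => fB β r s w) ∧
    ∫ w : ℝ, fB β r s (w + ((Real.pi - β) / 2 : ℝ) * I)
      = (∫ w : ℝ, fB β r s w) + Complex.exp (-((r : ℂ) * Complex.cosh (((-s : ℝ) : ℂ) + β * I))) := by
  obtain ⟨n1, n2, n3⟩ := nu_pos h0 h1
  obtain ⟨c1, c2, c3, c4, c5⟩ := nu_trig h0 h1
  have hk := kc_pos h0 h1
  have hp := Real.pi_pos
  have hc : 0 < 2 * nu β := by linarith only [n1]
  obtain ⟨b, hb⟩ : ∃ b : ℝ, b = (Real.pi - β) / 2 := ⟨_, rfl⟩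
  rw [← hb]
  have hβb : β < b := by rw [hb]; linarith
  have hb2 : b < Real.pi / 2 := by rw [hb]; linarith
  have hexp : ∀ z : ℂ, 0 ≤ z.im → z.im ≤ b → ‖Complex.exp (-((r : ℂ) * Complex.cosh z))‖ ≤ 1 := by
    intro z hz1 hz2
    rw [Complex.norm_exp, Real.exp_le_one_iff, cosh_re_im]
    have hcz : 0 ≤ Real.cos z.im := Real.cos_nonneg_of_mem_Icc ⟨by linarith only [h0, h1, hz1], by linarith⟩
    have := Real.cosh_pos z.re
    simp only [neg_re, add_re, mul_re, ofReal_re, ofReal_im, I_re, I_im, add_im, mul_im]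
    ring_nf
    have h3 := mul_nonneg hr (mul_nonneg this.le hcz)
    linarith only [h3]
  -- the two lines
  have hdiff : ∀ z : ℂ, dB β s z ≠ 0 → DifferentiableAt ℂ (fB β r s) z := by
    intro z hz
    have e : fB β r s = fun z => Complex.exp (-((r : ℂ) * Complex.cosh z)) * (-(kc β : ℂ) / dB β s z) := by
      funext z
      unfold fB
      rw [Kc_dB h0 h1]
    rw [e]
    refine DifferentiableAt.mul (by fun_prop) ?_
    exact (differentiableAt_const _).div (dB_diff β s z) hz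
  have I1 : Integrable (fun w : ℝ => fB β r s (w + b * I)) := by
    refine integrable_line (C := CK β * Real.exp (2 * nu β * |s|)) hc (fun w => hdiff _ ?_) fun w => ?_
    · refine dB_ne h0 h1 ?_ ?_ ?_
      · simp; linarith
      · simp; linarith only [hb]
      · intro h
        have := congrArg Complex.im h
        simp at this
        linarith
    · have hcos : 0 ≤ Real.cos (2 * nu β * ((w : ℂ) + b * I + s - ((Real.pi - β : ℝ) : ℂ) * I).im) := by
        have e : ((w : ℂ) + b * I + s - ((Real.pi - β : ℝ) : ℂ) * I).im = b - (Real.pi - β) := by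
          rw [sub_im, add_im, add_im, ofReal_im, ofReal_im, im_ofReal_mul, im_ofReal_mul, I_im]
          ring
        have e2 : 2 * nu β * (b - (Real.pi - β)) = -(Real.pi / 2) := by
          rw [hb]; linear_combination (-1 / 2 : ℝ) * n3
        rw [e, e2, Real.cos_neg, Real.cos_pi_div_two]
      have h2 := Kc_norm h0 h1 hcos
      have e : ((w : ℂ) + b * I + s - ((Real.pi - β : ℝ) : ℂ) * I).re = w + s := by
        rw [sub_re, add_re, add_re, ofReal_re, ofReal_re, re_ofReal_mul, re_ofReal_mul, I_re]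
        ring
      rw [e] at h2
      unfold fB
      rw [norm_mul]
      calc _ ≤ 1 * (CK β * Real.exp (-(2 * nu β * |w + s|))) :=
            mul_le_mul (hexp _ (by simp; linarith only [h0, hβb]) (by simp)) h2 (norm_nonneg _) zero_le_one
        _ ≤ CK β * Real.exp (2 * nu β * |s|) * Real.exp (-(2 * nu β * |w|)) := by
            rw [one_mul, mul_assoc (CK β)]
            exact mul_le_mul_of_nonneg_left (exp_abs_shift hc) (CK_pos h0 h1).le
  have I0 : Integrable (fun w : ℝ => fB β r s (w + (0 : ℝ) * I)) := by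
    refine integrable_line (C := 2 * kc β / (1 + Real.cos (2 * Real.pi * nu β)) * Real.exp (2 * nu β * |s|))
      hc (fun w => hdiff _ ?_) fun w => ?_
    · refine dB_ne h0 h1 ?_ ?_ ?_
      · simp
      · simp; linarith only [h0, h1]
      · intro h
        have := congrArg Complex.im h
        simp at this
        linarith
    · have hpos : 0 < 1 + Real.cos (2 * Real.pi * nu β) := by linarith
      have h2 : dB β s ((w : ℂ) + (0 : ℝ) * I)
          = ((Real.cosh (2 * nu β * (w + s)) + Real.cos (2 * Real.pi * nu β) : ℝ) : ℂ) := by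
        rw [dB_re_im]; simp
      have h3 : (1 + Real.cos (2 * Real.pi * nu β)) * (Real.exp (2 * nu β * |w + s|) / 2)
          ≤ Real.cosh (2 * nu β * (w + s)) + Real.cos (2 * Real.pi * nu β) := by
        have a1 := exp_abs_le_cosh (2 * nu β * (w + s))
        have a2 := Real.one_le_cosh (2 * nu β * (w + s))
        rw [abs_mul (2 * nu β), abs_of_pos hc] at a1
        have a3 := mul_le_mul_of_nonneg_left a1 hpos.le
        nlinarith only [a3, c1, a2]
      have h4 : 0 < Real.exp (2 * nu β * |w + s|) := Real.exp_pos _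
      unfold fB
      rw [norm_mul, Kc_dB h0 h1, h2, norm_div, norm_neg, Complex.norm_real, Complex.norm_real,
        Real.norm_eq_abs, Real.norm_eq_abs, abs_of_pos hk,
        abs_of_pos (lt_of_lt_of_le (by positivity) h3)]
      calc _ ≤ 1 * (kc β / ((1 + Real.cos (2 * Real.pi * nu β)) * (Real.exp (2 * nu β * |w + s|) / 2))) :=
            mul_le_mul (hexp _ (by simp) (by simp; linarith))
              (div_le_div_of_nonneg_left hk.le (by positivity) h3) (by
                exact div_nonneg hk.le (le_trans (by positivity) h3)) zero_le_one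
        _ = 2 * kc β / (1 + Real.cos (2 * Real.pi * nu β)) * Real.exp (-(2 * nu β * |w + s|)) := by
            rw [Real.exp_neg]; field_simp
        _ ≤ _ := by
            rw [mul_assoc (2 * kc β / (1 + Real.cos (2 * Real.pi * nu β)))]
            exact mul_le_mul_of_nonneg_left (exp_abs_shift hc) (by positivity)
  have I0' : Integrable (fun w : ℝ => fB β r s w) := by simpa using I0
  refine ⟨I1, I0', ?_⟩
  have key := strip_residue (F := fB β r s)
    (φ := fun z => Complex.exp (-((r : ℂ) * Complex.cosh z)) * (-(kc β : ℂ) / eB β s z))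
    (a := 0) (b := b) (R0 := |s| + 2) (x := -s) (y := β) h0 hβb
    (by
      intro z hz1 hz2
      refine DifferentiableAt.mul (by fun_prop) ?_
      exact (differentiableAt_const _).div (eB_diff β s z) (eB_ne h0 h1 hz1 (by rw [← hb]; exact hz2)))
    (by
      intro z hz1 hz2 hz
      have h2 := eB_mul h0 h1 s z
      have h3 := eB_ne (s := s) h0 h1 hz1 (by rw [← hb]; exact hz2)
      have h4 : z - (((-s : ℝ) : ℂ) + β * I) ≠ 0 := sub_ne_zero.2 hz
      unfold fB
      rw [Kc_dB h0 h1, ← h2]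
      field_simp)
    I0 I1 (tendsto_bound (C := 4 * kc β * Real.exp (2 * nu β * |s|)) hc)
    (by
      intro z hz1 hz2 hz3
      have h2 := dB_far (s := s) h0 h1 hz3
      have h4 : 0 < Real.exp (2 * nu β * |z.re + s|) := Real.exp_pos _
      unfold fB
      rw [norm_mul, Kc_dB h0 h1, norm_div, norm_neg, Complex.norm_real, Real.norm_eq_abs, abs_of_pos hk]
      calc _ ≤ 1 * (kc β / (Real.exp (2 * nu β * |z.re + s|) / 4)) :=
            mul_le_mul (hexp _ hz1 hz2) (div_le_div_of_nonneg_left hk.le (by positivity) h2)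
              (by positivity) zero_le_one
        _ = 4 * kc β * Real.exp (-(2 * nu β * |z.re + s|)) := by
            rw [Real.exp_neg]; field_simp
        _ ≤ _ := by
            rw [mul_assoc (4 * kc β)]
            exact mul_le_mul_of_nonneg_left (exp_abs_shift hc) (by positivity))
  have e0 : (∫ w : ℝ, fB β r s (w + (0 : ℝ) * I)) = ∫ w : ℝ, fB β r s w := by simp
  rw [e0] at key
  rw [eB_same h0 h1] at key
  have hS : Real.sin (2 * Real.pi * nu β) ≠ 0 := c3.ne
  have hn : nu β ≠ 0 := by intro h; linarith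
  have e5 : 2 * (Real.pi : ℂ) * I * (Complex.exp (-((r : ℂ) * Complex.cosh (((-s : ℝ) : ℂ) + β * I)))
      * (-(kc β : ℂ) / (-(2 * nu β * Real.sin (2 * Real.pi * nu β) : ℝ) * I)))
      = -Complex.exp (-((r : ℂ) * Complex.cosh (((-s : ℝ) : ℂ) + β * I))) := by
    have hk2 : kc β = -(nu β * Real.sin (2 * Real.pi * nu β)) / Real.pi := by unfold kc; ring
    have hS' : ((Real.sin (2 * Real.pi * nu β) : ℝ) : ℂ) ≠ 0 := by exact_mod_cast hS
    have hn' : ((nu β : ℝ) : ℂ) ≠ 0 := by exact_mod_cast hn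
    have hpi' : ((Real.pi : ℝ) : ℂ) ≠ 0 := by exact_mod_cast hp.ne'
    have hI : (I : ℂ) ≠ 0 := I_ne_zero
    rw [hk2]
    push_cast [-Complex.ofReal_sin]
    field_simp
  rw [e5] at key
  linear_combination -key

theorem boundary {β : ℝ} (h0 : 0 < β) (h1 : β < Real.pi / 3) {u : ℝ} {x : ℂ}
    (him : 0 ≤ x.im) (hx : x.re * Real.sin β + x.im * Real.cos β = 0) : Sc β u x = EE u x := by
  have hp := Real.pi_pos
  have hsin : 0 < Real.sin β := Real.sin_pos_of_pos_of_lt_pi h0 (by linarith)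
  obtain ⟨r, hr⟩ : ∃ r : ℝ, r = x.im / Real.sin β := ⟨_, rfl⟩
  have hr0 : 0 ≤ r := by rw [hr]; positivity
  have him' : x.im = r * Real.sin β := by rw [hr]; field_simp
  have hre' : x.re = -(r * Real.cos β) := by
    rw [him'] at hx
    have : (x.re + r * Real.cos β) * Real.sin β = 0 := by linear_combination hx
    have := (mul_eq_zero.1 this).resolve_right hsin.ne'
    linarith only [this]
  obtain ⟨i1, i2, i3⟩ := fB_residue h0 h1 hr0 u
  obtain ⟨j1, j2, j3⟩ := fB_residue h0 h1 hr0 (-u)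
  have e1 : ∀ w : ℝ, Ex β w x * Fw β u w = fB β r u (w + ((Real.pi - β) / 2 : ℝ) * I)
      - fB β r (-u) (w + ((Real.pi - β) / 2 : ℝ) * I) := by
    intro w
    rw [integrand_eq h0 h1]
    unfold fS fB
    obtain ⟨z, hz⟩ : ∃ z : ℂ, z = w + ((-((Real.pi - β) / 2) : ℝ) : ℂ) * I := ⟨_, rfl⟩
    have hζ : (w : ℂ) + ((Real.pi - β) / 2 : ℝ) * I = z + ((Real.pi - β : ℝ) : ℂ) * I := by
      rw [hz]; push_cast; ring
    rw [← hz, hζ]
    have a1 : z + ((Real.pi - β : ℝ) : ℂ) * I + u - ((Real.pi - β : ℝ) : ℂ) * I = z + u := by ring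
    have a2 : z + ((Real.pi - β : ℝ) : ℂ) * I + ((-u : ℝ) : ℂ) - ((Real.pi - β : ℝ) : ℂ) * I = z - u := by
      push_cast; ring
    have a3 : (r : ℂ) * Complex.cosh (z + ((Real.pi - β : ℝ) : ℂ) * I)
        = (x.re : ℂ) * Complex.cosh z + I * (x.im : ℂ) * Complex.sinh z := by
      rw [Complex.cosh_add, Complex.cosh_mul_I, Complex.sinh_mul_I, ← Complex.ofReal_cos,
        ← Complex.ofReal_sin, Real.cos_pi_sub, Real.sin_pi_sub, hre', him']
      push_cast
      ring
    rw [a1, a2, a3]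
    ring
  have e2 : (∫ w : ℝ, fB β r (-u) w) = ∫ w : ℝ, fB β r u w := by
    rw [← integral_neg_eq_self (fun w : ℝ => fB β r (-u) w)]
    refine integral_congr_ae (Eventually.of_forall fun w => ?_)
    simp only []
    unfold fB
    rw [Kc_dB h0 h1, Kc_dB h0 h1]
    have b1 : dB β (-u) ((-w : ℝ) : ℂ) = dB β u w := by
      unfold dB
      have : 2 * (nu β : ℂ) * (((-w : ℝ) : ℂ) + ((-u : ℝ) : ℂ)) = -(2 * nu β * (w + u)) := by
        push_cast; ring
      rw [this, Complex.cosh_neg]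
    have b2 : Complex.cosh ((-w : ℝ) : ℂ) = Complex.cosh w := by
      rw [Complex.ofReal_neg, Complex.cosh_neg]
    rw [b1, b2]
  have x1 : Complex.exp (-((r : ℂ) * Complex.cosh (((-u : ℝ) : ℂ) + β * I)))
      = Complex.exp (x.re * Complex.cosh u) *
        (Complex.cos (x.im * Complex.sinh u) + Complex.sin (x.im * Complex.sinh u) * I) := by
    rw [← Complex.exp_mul_I, ← Complex.exp_add, Complex.cosh_add, Complex.cosh_mul_I,
      Complex.sinh_mul_I, Complex.ofReal_neg, Complex.cosh_neg, Complex.sinh_neg, hre', him']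
    congr 1
    push_cast
    ring
  have x2 : Complex.exp (-((r : ℂ) * Complex.cosh (((-(-u) : ℝ) : ℂ) + β * I)))
      = Complex.exp (x.re * Complex.cosh u) *
        (Complex.cos (x.im * Complex.sinh u) - Complex.sin (x.im * Complex.sinh u) * I) := by
    have x0 : Complex.cos (x.im * Complex.sinh u) - Complex.sin (x.im * Complex.sinh u) * I
        = Complex.exp (-(x.im * Complex.sinh u) * I) := by
      rw [Complex.exp_mul_I, Complex.cos_neg, Complex.sin_neg]
      ring
    rw [x0, ← Complex.exp_add, neg_neg, Complex.cosh_add, Complex.cosh_mul_I,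
      Complex.sinh_mul_I, hre', him']
    congr 1
    push_cast
    ring
  have e3 : (∫ w : ℝ, Ex β w x * Fw β u w) = 2 * I * ((EE u x : ℝ) : ℂ) := by
    simp only [e1]
    rw [integral_sub i1 j1, i3, j3, e2, x1, x2]
    unfold EE
    push_cast
    ring
  unfold Sc
  rw [e3]
  have : (2 * I : ℂ) ≠ 0 := by simp
  rw [mul_div_cancel_left₀ _ this, ofReal_re]

/-- boundary values of the Sommerfeld integral, and its expansion to the right -/
theorem w1a : W1aStatement := by
  intro β u h0 h1 hu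
  refine ⟨?_, ?_, ?_⟩
  · intro x hx hre
    rw [expansion h0 h1 hu hre hx.ge]
    have : ∀ w : ℝ, bb β u w * dec w x = 0 := by
      intro w
      unfold dec
      rw [hx]
      simp
    simp [this]
  · intro x him hx
    exact boundary h0 h1 him hx
  · intro x hre him
    exact expansion h0 h1 hu hre.le him.le

end Pool.Agent.H16F.H81
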