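import Pool.Agent.Helper81_Fine.W1A

/-!
Estimates for the Sommerfeld integral, and the equation in the open wedge.
-/

namespace Pool.Agent.H16F.H81

open MeasureTheory Complex Filter Topology Set Pool.Agent.H16F
open scoped ContDiff

/-- the point of the contour -/
noncomputable def zz (β w : ℝ) : ℂ := w + ((-((Real.pi - β) / 2) : ℝ) : ℂ) * I

/-- real part as a real linear map into the complex numbers -/
noncomputable def reC : ℂ →L[ℝ] ℂ := Complex.ofRealCLM.comp Complex.reCLM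

/-- imaginary part as a real linear map into the complex numbers -/
noncomputable def imC : ℂ →L[ℝ] ℂ := Complex.ofRealCLM.comp Complex.imCLM

/-- the exponent of the complex exponential solution -/
noncomputable def Tw (β w : ℝ) : ℂ →L[ℝ] ℂ :=
  (-Complex.cosh (zz β w)) • reC + (-(I * Complex.sinh (zz β w))) • imC

theorem Tw_apply (β w : ℝ) (x : ℂ) : Tw β w x
    = -((x.re : ℂ) * Complex.cosh (zz β w) + I * (x.im : ℂ) * Complex.sinh (zz β w)) := by
  unfold Tw reC imC
  simp only [add_apply, smul_apply, ContinuousLinearMap.comp_apply, Complex.reCLM_apply, Complex.imCLM_apply,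
    Complex.ofRealCLM_apply, smul_eq_mul]
  ring

theorem Ex_Tw (β w : ℝ) (x : ℂ) : Ex β w x = Complex.exp (Tw β w x) := by
  rw [Ex_eq, Tw_apply]
  rfl

/-- distance from the line through the vertex orthogonal to the axis of the wedge -/
noncomputable def AA (β : ℝ) (x : ℂ) : ℝ := x.re * Real.sin (β / 2) + x.im * Real.cos (β / 2)

theorem AA_cont (β : ℝ) : Continuous (AA β) := by
  unfold AA
  fun_prop

theorem zz_re (β w : ℝ) : (zz β w).re = w := by
  unfold zz
  rw [add_re, ofReal_re, re_ofReal_mul, I_re, mul_zero, add_zero]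

theorem zz_im (β w : ℝ) : (zz β w).im = -((Real.pi - β) / 2) := by
  unfold zz
  rw [add_im, ofReal_im, im_ofReal_mul, I_im, mul_one, zero_add]

theorem zz_cos (β w : ℝ) : Real.cos (zz β w).im = Real.sin (β / 2) := by
  rw [zz_im, Real.cos_neg]
  have : (Real.pi - β) / 2 = Real.pi / 2 - β / 2 := by ring
  rw [this, Real.cos_pi_div_two_sub]

theorem zz_sin (β w : ℝ) : Real.sin (zz β w).im = -Real.cos (β / 2) := by
  rw [zz_im, Real.sin_neg]
  have : (Real.pi - β) / 2 = Real.pi / 2 - β / 2 := by ring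
  rw [this, Real.sin_pi_div_two_sub]

theorem Tw_re (β w : ℝ) (x : ℂ) : (Tw β w x).re = -(AA β x * Real.cosh w) := by
  rw [Tw_apply, cosh_re_im, sinh_re_im, zz_cos, zz_sin, zz_re]
  unfold AA
  simp only [neg_re, add_re, mul_re, ofReal_re, ofReal_im, I_re, I_im, add_im, mul_im]
  ring

theorem norm_Ex (β w : ℝ) (x : ℂ) : ‖Ex β w x‖ = Real.exp (-(AA β x * Real.cosh w)) := by
  rw [Ex_Tw, Complex.norm_exp, Tw_re]

theorem norm_cosh_le (z : ℂ) : ‖Complex.cosh z‖ ≤ Real.cosh z.re := by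
  refine abs_le_of_sq_le_sq' ?_ (Real.cosh_pos _).le |>.2
  rw [Complex.sq_norm, Complex.normSq_apply, cosh_re_im]
  simp only [add_re, ofReal_re, mul_re, I_re, mul_zero, ofReal_im, I_im, mul_one, sub_self,
    add_zero, add_im, mul_im, zero_add]
  have h1 := Real.cosh_sq z.re
  have h2 := Real.sin_sq_add_cos_sq z.im
  have e : Real.cosh z.re * Real.cos z.im * (Real.cosh z.re * Real.cos z.im)
      + Real.sinh z.re * Real.sin z.im * (Real.sinh z.re * Real.sin z.im)
      = Real.cosh z.re ^ 2 * Real.cos z.im ^ 2 + (Real.cosh z.re ^ 2 - 1) * Real.sin z.im ^ 2 := by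
    have : Real.sinh z.re ^ 2 = Real.cosh z.re ^ 2 - 1 := by linarith
    rw [← this]; ring
  rw [e]
  nlinarith only [h2, sq_nonneg (Real.sin z.im)]

theorem norm_sinh_le (z : ℂ) : ‖Complex.sinh z‖ ≤ Real.cosh z.re := by
  refine abs_le_of_sq_le_sq' ?_ (Real.cosh_pos _).le |>.2
  rw [Complex.sq_norm, Complex.normSq_apply, sinh_re_im]
  simp only [add_re, ofReal_re, mul_re, I_re, mul_zero, ofReal_im, I_im, mul_one, sub_self,
    add_zero, add_im, mul_im, zero_add]
  have h1 := Real.cosh_sq z.re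
  have h2 := Real.sin_sq_add_cos_sq z.im
  have e : Real.sinh z.re * Real.cos z.im * (Real.sinh z.re * Real.cos z.im)
      + Real.cosh z.re * Real.sin z.im * (Real.cosh z.re * Real.sin z.im)
      = (Real.cosh z.re ^ 2 - 1) * Real.cos z.im ^ 2 + Real.cosh z.re ^ 2 * Real.sin z.im ^ 2 := by
    have : Real.sinh z.re ^ 2 = Real.cosh z.re ^ 2 - 1 := by linarith
    rw [← this]; ring
  rw [e]
  nlinarith only [h2, sq_nonneg (Real.cos z.im)]

theorem norm_Tw_apply (β w : ℝ) (x : ℂ) : ‖Tw β w x‖ ≤ 2 * Real.cosh w * ‖x‖ := by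
  rw [Tw_apply, norm_neg]
  refine (norm_add_le _ _).trans ?_
  rw [norm_mul, norm_mul, norm_mul, norm_I, one_mul, Complex.norm_real, Complex.norm_real,
    Real.norm_eq_abs, Real.norm_eq_abs]
  have h1 := norm_cosh_le (zz β w)
  have h2 := norm_sinh_le (zz β w)
  rw [zz_re] at h1 h2
  have h3 := mul_le_mul (Complex.abs_re_le_norm x) h1 (norm_nonneg _) (norm_nonneg _)
  have h4 := mul_le_mul (Complex.abs_im_le_norm x) h2 (norm_nonneg _) (norm_nonneg _)
  linarith

theorem norm_Tw (β w : ℝ) : ‖Tw β w‖ ≤ 2 * Real.cosh w :=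
  ContinuousLinearMap.opNorm_le_bound _ (by have := Real.cosh_pos w; positivity) (norm_Tw_apply β w)

theorem Tw_cont (β : ℝ) : Continuous (Tw β) := by
  unfold Tw zz
  fun_prop

theorem Ex_fderiv (β w : ℝ) (x : ℂ) : HasFDerivAt (Ex β w) (Ex β w x • Tw β w) x := by
  have h : Ex β w = fun x => Complex.exp (Tw β w x) := by funext x; exact Ex_Tw β w x
  rw [h]
  exact (Tw β w).hasFDerivAt.cexp

theorem cosh_le_exp (w : ℝ) : Real.cosh w ≤ Real.exp |w| := by
  rw [← Real.cosh_abs, Real.cosh_eq]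
  have : Real.exp (-|w|) ≤ Real.exp |w| := Real.exp_le_exp.2 (by have := abs_nonneg w; linarith)
  linarith

/-- rapid decay -/
theorem cosh_decay {δ : ℝ} (hδ : 0 < δ) (m : ℕ) : ∃ K : ℝ, 0 < K ∧ ∀ w : ℝ,
    Real.cosh w ^ m * Real.exp (-(δ * Real.cosh w)) ≤ K * Real.exp (-|w|) := by
  refine ⟨2 * ((m + 1).factorial / δ ^ (m + 1)), by positivity, fun w => ?_⟩
  have h1 := exp_abs_le_cosh w
  have hc := Real.cosh_pos w
  have h2 := Real.pow_div_factorial_le_exp (δ * Real.cosh w) (by positivity) (m + 1)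
  have h3 : 0 < Real.exp |w| := Real.exp_pos _
  have h4 : 0 < Real.exp (δ * Real.cosh w) := Real.exp_pos _
  rw [Real.exp_neg, Real.exp_neg, ← div_eq_mul_inv, ← div_eq_mul_inv, div_le_div_iff₀ h4 h3]
  have h5 : (δ * Real.cosh w) ^ (m + 1) ≤ (m + 1).factorial * Real.exp (δ * Real.cosh w) := by
    rwa [div_le_iff₀' (by positivity)] at h2
  have h6 : Real.cosh w ^ (m + 1) ≤ (m + 1).factorial / δ ^ (m + 1) * Real.exp (δ * Real.cosh w) := by
    rw [div_mul_eq_mul_div, le_div_iff₀ (by positivity)]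
    rw [mul_pow] at h5
    linarith only [h5]
  calc Real.cosh w ^ m * Real.exp |w| ≤ Real.cosh w ^ m * (2 * Real.cosh w) := by
        refine mul_le_mul_of_nonneg_left (by linarith) (by positivity)
    _ = 2 * Real.cosh w ^ (m + 1) := by ring
    _ ≤ _ := by linarith

/-- admissible densities -/
def Adm (g : ℝ → ℂ) : Prop := Continuous g ∧ ∃ (C : ℝ) (m : ℕ), ∀ w, ‖g w‖ ≤ C * Real.cosh w ^ m

/-- superposition of the exponential solutions -/
noncomputable def JJ (β : ℝ) (g : ℝ → ℂ) (x : ℂ) : ℂ := ∫ w : ℝ, Ex β w x * g w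

theorem Ex_cont_w (β : ℝ) (x : ℂ) : Continuous fun w => Ex β w x := by
  have h : (fun w => Ex β w x) = fun w => Complex.exp (Tw β w x) := by funext w; exact Ex_Tw β w x
  rw [h]
  have := Tw_cont β
  fun_prop

theorem Adm.mul {g : ℝ → ℂ} (hg : Adm g) {h : ℝ → ℂ} (hh : Continuous h)
    (hb : ∀ w, ‖h w‖ ≤ 2 * Real.cosh w) : Adm fun w => h w * g w := by
  obtain ⟨h1, C, m, h2⟩ := hg
  refine ⟨hh.mul h1, 2 * C, m + 1, fun w => ?_⟩
  rw [norm_mul]
  have hc := Real.cosh_pos w
  calc ‖h w‖ * ‖g w‖ ≤ (2 * Real.cosh w) * (C * Real.cosh w ^ m) :=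
        mul_le_mul (hb w) (h2 w) (norm_nonneg _) (by positivity)
    _ = _ := by ring

theorem JJ_hasFDerivAt {β : ℝ} {g : ℝ → ℂ} (hg : Adm g) {x : ℂ} (hx : 0 < AA β x) :
    HasFDerivAt (JJ β g) (∫ w : ℝ, (Ex β w x * g w) • Tw β w) x := by
  obtain ⟨h1, C, m, h2⟩ := hg
  have hC : 0 ≤ C := by
    have := (norm_nonneg _).trans (h2 0)
    simpa using this
  obtain ⟨δ, hδ⟩ : ∃ δ : ℝ, δ = AA β x / 2 := ⟨_, rfl⟩
  have hδ0 : 0 < δ := by rw [hδ]; linarith
  obtain ⟨K, hK, hK2⟩ := cosh_decay hδ0 (m + 1)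
  have hs : {y : ℂ | δ < AA β y} ∈ 𝓝 x :=
    (isOpen_lt continuous_const (AA_cont β)).mem_nhds (by show δ < AA β x; linarith)
  have hEx : ∀ y : ℂ, δ < AA β y → ∀ w, ‖Ex β w y‖ ≤ Real.exp (-(δ * Real.cosh w)) := by
    intro y hy w
    rw [norm_Ex, Real.exp_le_exp]
    have := Real.cosh_pos w
    nlinarith only [hy, this]
  have hb : Integrable fun w : ℝ => 2 * C * (K * Real.exp (-|w|)) := by
    have := integrable_exp_abs (c := 1) one_pos
    simp only [one_mul] at this
    exact (this.const_mul K).const_mul (2 * C)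
  unfold JJ
  refine hasFDerivAt_integral_of_dominated_of_fderiv_le (𝕜 := ℝ) (s := {y : ℂ | δ < AA β y})
    (F := fun x w => Ex β w x * g w) (F' := fun x w => (Ex β w x * g w) • Tw β w)
    (bound := fun w => 2 * C * (K * Real.exp (-|w|))) hs ?_ ?_ ?_ ?_ hb ?_
  · exact Eventually.of_forall fun y => ((Ex_cont_w β y).mul h1).aestronglyMeasurable
  · refine hb.mono' ((Ex_cont_w β x).mul h1).aestronglyMeasurable (Eventually.of_forall fun w => ?_)
    have hc := Real.cosh_pos w
    have hc1 := Real.one_le_cosh w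
    rw [norm_mul]
    calc ‖Ex β w x‖ * ‖g w‖ ≤ Real.exp (-(δ * Real.cosh w)) * (C * Real.cosh w ^ m) :=
          mul_le_mul (hEx x (by linarith) w) (h2 w) (norm_nonneg _) (Real.exp_pos _).le
      _ = C * (Real.cosh w ^ m * Real.exp (-(δ * Real.cosh w))) := by ring
      _ ≤ C * (Real.cosh w ^ (m + 1) * Real.exp (-(δ * Real.cosh w))) := by
          refine mul_le_mul_of_nonneg_left (mul_le_mul_of_nonneg_right ?_ (Real.exp_pos _).le) hC
          exact pow_le_pow_right₀ hc1 (Nat.le_succ m)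
      _ ≤ C * (K * Real.exp (-|w|)) := mul_le_mul_of_nonneg_left (hK2 w) hC
      _ ≤ _ := by
          have : 0 ≤ C * (K * Real.exp (-|w|)) := by positivity
          linarith
  · exact (((Ex_cont_w β x).mul h1).smul (Tw_cont β)).aestronglyMeasurable
  · refine Eventually.of_forall fun w y hy => ?_
    have hc := Real.cosh_pos w
    rw [norm_smul, norm_mul]
    calc ‖Ex β w y‖ * ‖g w‖ * ‖Tw β w‖
        ≤ Real.exp (-(δ * Real.cosh w)) * (C * Real.cosh w ^ m) * (2 * Real.cosh w) := by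
          refine mul_le_mul (mul_le_mul (hEx y hy w) (h2 w) (norm_nonneg _) (Real.exp_pos _).le)
            (norm_Tw β w) (norm_nonneg _) ?_
          positivity
      _ = 2 * C * (Real.cosh w ^ (m + 1) * Real.exp (-(δ * Real.cosh w))) := by ring
      _ ≤ _ := mul_le_mul_of_nonneg_left (hK2 w) (by positivity)
  · refine Eventually.of_forall fun w y hy => ?_
    have := (Ex_fderiv β w y).mul_const (g w)
    refine this.congr_fderiv ?_
    ext v
    simp
    ring

theorem integrable_adm {E : Type*} [NormedAddCommGroup E] [NormedSpace ℂ E] {β : ℝ} {h : ℝ → E}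
    (hc : Continuous h) {C : ℝ} {m : ℕ} (hb : ∀ w, ‖h w‖ ≤ C * Real.cosh w ^ m) {x : ℂ}
    (hx : 0 < AA β x) : Integrable fun w : ℝ => Ex β w x • h w := by
  have hC : 0 ≤ C := by
    have := (norm_nonneg _).trans (hb 0)
    simpa using this
  obtain ⟨K, hK, hK2⟩ := cosh_decay hx m
  have hbd : Integrable fun w : ℝ => C * (K * Real.exp (-|w|)) := by
    have := integrable_exp_abs (c := 1) one_pos
    simp only [one_mul] at this
    exact (this.const_mul K).const_mul C
  refine hbd.mono' ((Ex_cont_w β x).smul hc).aestronglyMeasurable (Eventually.of_forall fun w => ?_)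
  have hcw := Real.cosh_pos w
  rw [norm_smul, norm_Ex]
  calc _ ≤ Real.exp (-(AA β x * Real.cosh w)) * (C * Real.cosh w ^ m) :=
        mul_le_mul_of_nonneg_left (hb w) (Real.exp_pos _).le
    _ = C * (Real.cosh w ^ m * Real.exp (-(AA β x * Real.cosh w))) := by ring
    _ ≤ _ := mul_le_mul_of_nonneg_left (hK2 w) hC

theorem JJ_fderiv_eq {β : ℝ} {g : ℝ → ℂ} (hg : Adm g) {x : ℂ} (hx : 0 < AA β x) :
    fderiv ℝ (JJ β g) x = ∫ w : ℝ, (Ex β w x * g w) • Tw β w :=
  (JJ_hasFDerivAt hg hx).fderiv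

theorem JJ_fderiv {β : ℝ} {g : ℝ → ℂ} (hg : Adm g) {x : ℂ} (hx : 0 < AA β x) (v : ℂ) :
    fderiv ℝ (JJ β g) x v = JJ β (fun w => Tw β w v * g w) x := by
  rw [JJ_fderiv_eq hg hx, ContinuousLinearMap.integral_apply]
  · unfold JJ
    refine integral_congr_ae (Eventually.of_forall fun w => ?_)
    simp only [smul_apply, smul_eq_mul]
    ring
  · obtain ⟨h1, C, m, h2⟩ := hg
    have := integrable_adm (β := β) (h := fun w => g w • Tw β w) (h1.smul (Tw_cont β))
      (C := 2 * C) (m := m + 1) (fun w => ?_) hx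
    · refine this.congr (Eventually.of_forall fun w => ?_)
      simp only [smul_smul]
    · rw [norm_smul]
      have hc := Real.cosh_pos w
      calc ‖g w‖ * ‖Tw β w‖ ≤ (C * Real.cosh w ^ m) * (2 * Real.cosh w) :=
            mul_le_mul (h2 w) (norm_Tw β w) (norm_nonneg _) ((norm_nonneg _).trans (h2 w))
        _ = _ := by ring

theorem Adm.tw {β : ℝ} {g : ℝ → ℂ} (hg : Adm g) {v : ℂ} (hv : ‖v‖ ≤ 1) :
    Adm fun w => Tw β w v * g w := by
  refine hg.mul (h := fun w => Tw β w v) ?_ fun w => ?_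
  · have := Tw_cont β
    fun_prop
  · refine (norm_Tw_apply β w v).trans ?_
    have := Real.cosh_pos w
    have h2 : 2 * Real.cosh w * ‖v‖ ≤ 2 * Real.cosh w * 1 :=
      mul_le_mul_of_nonneg_left hv (by positivity)
    linarith

theorem lin_decomp (L : ℂ →L[ℝ] ℂ) : L = L 1 • reC + L I • imC := by
  ext v
  unfold reC imC
  simp only [add_apply, smul_apply, ContinuousLinearMap.comp_apply, Complex.reCLM_apply, Complex.imCLM_apply,
    Complex.ofRealCLM_apply, smul_eq_mul]
  have h : L v = (v.re : ℝ) • L 1 + (v.im : ℝ) • L I := by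
    rw [← map_smul, ← map_smul, ← map_add]
    congr 1
    simp
  rw [h]
  simp only [Complex.real_smul]
  ring

theorem JJ_contDiff {β : ℝ} (k : ℕ) : ∀ g : ℝ → ℂ, Adm g → ContDiffOn ℝ k (JJ β g) {x | 0 < AA β x} := by
  have hopen : IsOpen {x : ℂ | 0 < AA β x} := isOpen_lt continuous_const (AA_cont β)
  induction k with
  | zero =>
    intro g hg
    have h0 : ContDiffOn ℝ 0 (JJ β g) {x | 0 < AA β x} := by
      rw [contDiffOn_zero]
      intro x hx
      exact (JJ_hasFDerivAt hg hx).continuousAt.continuousWithinAt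
    exact_mod_cast h0
  | succ k ih =>
    intro g hg
    have h1 : ContDiffOn ℝ ((k : ℕ∞ω) + 1) (JJ β g) {x | 0 < AA β x} := by
      rw [contDiffOn_succ_iff_fderiv_of_isOpen hopen]
      refine ⟨fun x hx => (JJ_hasFDerivAt hg hx).differentiableAt.differentiableWithinAt, ?_, ?_⟩
      · intro h
        exact absurd h (by simp)
      · have e : ∀ x ∈ {x : ℂ | 0 < AA β x}, fderiv ℝ (JJ β g) x
            = JJ β (fun w => Tw β w 1 * g w) x • reC + JJ β (fun w => Tw β w I * g w) x • imC := by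
          intro x hx
          rw [← JJ_fderiv hg hx, ← JJ_fderiv hg hx]
          exact lin_decomp _
        refine ContDiffOn.congr ?_ e
        exact ((ih _ (hg.tw (by simp))).smul contDiffOn_const).add
          ((ih _ (hg.tw (by simp))).smul contDiffOn_const)
    exact_mod_cast h1

theorem Fw_fS {β : ℝ} (h0 : 0 < β) (h1 : β < Real.pi / 3) (u w : ℝ) :
    Fw β u w = fS β u 0 (w + ((-((Real.pi - β) / 2) : ℝ) : ℂ) * I) := by
  rw [← integrand_eq h0 h1, Ex_Tw, map_zero, Complex.exp_zero, one_mul]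

theorem nu_a {β : ℝ} (h0 : 0 < β) (h1 : β < Real.pi / 3) :
    2 * nu β * (-((Real.pi - β) / 2)) = -(Real.pi / 2) := by
  obtain ⟨n1, n2, n3⟩ := nu_pos h0 h1
  linear_combination (-1 / 2 : ℝ) * n3

theorem Fw_bound {β : ℝ} (h0 : 0 < β) (h1 : β < Real.pi / 3) {u : ℝ} (hu : 0 < u) (w : ℝ) :
    ‖Fw β u w‖ ≤ 2 * CK β * Real.exp (2 * nu β * u) * Real.exp (-(2 * nu β * |w|)) := by
  rw [Fw_fS h0 h1]
  have := fS_bound h0 h1 hu (x := 0) (z := w + ((-((Real.pi - β) / 2) : ℝ) : ℂ) * I)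
  rw [add_im, ofReal_im, im_ofReal_mul, I_im, mul_one, zero_add, nu_a h0 h1, Real.cos_neg,
    Real.cos_pi_div_two, add_re, ofReal_re, re_ofReal_mul, I_re, mul_zero, add_zero] at this
  exact this le_rfl (by simp)

theorem Fw_cont {β : ℝ} (h0 : 0 < β) (h1 : β < Real.pi / 3) (u : ℝ) : Continuous (Fw β u) := by
  have h : Fw β u = fun w : ℝ => fS β u 0 (w + ((-((Real.pi - β) / 2) : ℝ) : ℂ) * I) := by
    funext w; exact Fw_fS h0 h1 u w
  rw [h, continuous_iff_continuousAt]
  intro w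
  have h2 : ContinuousAt (fun w : ℝ => ((w : ℂ) + ((-((Real.pi - β) / 2) : ℝ) : ℂ) * I)) w := by
    fun_prop
  refine ContinuousAt.comp (f := fun w : ℝ => ((w : ℂ) + ((-((Real.pi - β) / 2) : ℝ) : ℂ) * I))
    (g := fS β u 0) (fS_diff h0 h1 ?_).continuousAt h2
  rw [add_im, ofReal_im, im_ofReal_mul, I_im, mul_one, zero_add, nu_a h0 h1, Real.cos_neg,
    Real.cos_pi_div_two]

theorem Fw_adm {β : ℝ} (h0 : 0 < β) (h1 : β < Real.pi / 3) {u : ℝ} (hu : 0 < u) : Adm (Fw β u) := by
  obtain ⟨n1, n2, n3⟩ := nu_pos h0 h1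
  have hC := CK_pos h0 h1
  refine ⟨Fw_cont h0 h1 u, 2 * CK β * Real.exp (2 * nu β * u), 0, fun w => ?_⟩
  refine (Fw_bound h0 h1 hu w).trans ?_
  rw [pow_zero]
  refine mul_le_mul_of_nonneg_left ?_ (by positivity)
  rw [Real.exp_le_one_iff]
  have := abs_nonneg w
  nlinarith only [this, n1]

/-- passage to the real part -/
noncomputable def reL : ℂ →L[ℝ] ℝ := Complex.reCLM.comp ((ContinuousLinearMap.mul ℝ ℂ) (1 / (2 * I)))

theorem reL_apply (z : ℂ) : reL z = (z / (2 * I)).re := by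
  unfold reL
  simp only [ContinuousLinearMap.comp_apply, ContinuousLinearMap.mul_apply', Complex.reCLM_apply]
  congr 1
  ring

theorem reL_le (z : ℂ) : |reL z| ≤ ‖z‖ := by
  rw [reL_apply]
  refine (Complex.abs_re_le_norm _).trans ?_
  rw [norm_div, norm_mul, norm_I, mul_one]
  simp only [Complex.norm_ofNat]
  have := norm_nonneg z
  linarith

theorem Sc_JJ (β u : ℝ) : Sc β u = fun x => reL (JJ β (Fw β u) x) := by
  funext x
  rw [reL_apply]
  rfl

theorem Sc_fderiv {β : ℝ} (h0 : 0 < β) (h1 : β < Real.pi / 3) {u : ℝ} (hu : 0 < u) {x : ℂ}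
    (hx : 0 < AA β x) : HasFDerivAt (Sc β u) (reL.comp (fderiv ℝ (JJ β (Fw β u)) x)) x := by
  rw [Sc_JJ]
  have := JJ_hasFDerivAt (Fw_adm h0 h1 hu) hx
  rw [this.fderiv]
  exact reL.hasFDerivAt.comp x this

theorem mem_W1 {β : ℝ} (h0 : 0 < β) (h1 : β < Real.pi / 3) {x : ℂ} (him : 0 ≤ x.im)
    (hx : 0 ≤ x.re * Real.sin β + x.im * Real.cos β) : Real.sin (β / 2) * ‖x‖ ≤ AA β x := by
  have hp := Real.pi_pos
  have hs : 0 < Real.sin (β / 2) := Real.sin_pos_of_pos_of_lt_pi (by linarith) (by linarith)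
  have hc : 0 < Real.cos (β / 2) := Real.cos_pos_of_mem_Ioo ⟨by linarith, by linarith⟩
  have e1 : Real.sin β = 2 * Real.sin (β / 2) * Real.cos (β / 2) := by
    rw [← Real.sin_two_mul]; congr 1; ring
  have e2 : Real.cos β = 2 * Real.cos (β / 2) ^ 2 - 1 := by
    rw [← Real.cos_two_mul]; congr 1; ring
  have e3 := Real.sin_sq_add_cos_sq (β / 2)
  have hA : 0 ≤ AA β x := by
    unfold AA
    have : 0 ≤ 2 * Real.cos (β / 2) * (x.re * Real.sin (β / 2) + x.im * Real.cos (β / 2)) := by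
      have : 2 * Real.cos (β / 2) * (x.re * Real.sin (β / 2) + x.im * Real.cos (β / 2))
          = (x.re * Real.sin β + x.im * Real.cos β) + x.im := by rw [e1, e2]; ring
      rw [this]; linarith only [him, hx]
    nlinarith only [this, hc]
  refine abs_le_of_sq_le_sq' ?_ hA |>.2
  rw [mul_pow, Complex.sq_norm, Complex.normSq_apply]
  have h3 : 0 ≤ x.im * (x.re * Real.sin β + x.im * Real.cos β) := mul_nonneg him hx
  have h4 : AA β x ^ 2 - Real.sin (β / 2) ^ 2 * (x.re * x.re + x.im * x.im)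
      = x.im * (x.re * Real.sin β + x.im * Real.cos β) := by
    unfold AA
    rw [e1, e2]
    have : Real.sin (β / 2) ^ 2 = 1 - Real.cos (β / 2) ^ 2 := by linarith
    linear_combination (-x.im ^ 2) * this
  linarith only [h3, h4]

theorem closure_W1 (β : ℝ) : closure (W1 β) ⊆ {x | 0 ≤ x.im ∧ 0 ≤ x.re * Real.sin β + x.im * Real.cos β} := by
  refine closure_minimal ?_ ?_
  · intro x hx
    exact ⟨hx.1.le, hx.2.le⟩
  · exact (isClosed_le continuous_const continuous_im).inter
      (isClosed_le (f := fun _ : ℂ => (0 : ℝ))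
        (g := fun x : ℂ => x.re * Real.sin β + x.im * Real.cos β) continuous_const (by fun_prop))

theorem AA_pos_of_mem {β : ℝ} (h0 : 0 < β) (h1 : β < Real.pi / 3) {x : ℂ} (hx : x ∈ W1 β) :
    0 < AA β x := by
  have hp := Real.pi_pos
  have hs : 0 < Real.sin (β / 2) := Real.sin_pos_of_pos_of_lt_pi (by linarith) (by linarith)
  have := mem_W1 h0 h1 hx.1.le hx.2.le
  have hx0 : 0 < ‖x‖ := by
    rw [norm_pos_iff]
    intro h
    have := hx.1
    rw [h] at this
    simp at this
  nlinarith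

theorem Sc_bound {β : ℝ} (h0 : 0 < β) (h1 : β < Real.pi / 3) {u : ℝ} (hu : 0 < u) {x : ℂ}
    (hx : 0 ≤ AA β x) : |Sc β u x| ≤ 2 * CK β * Real.exp (2 * nu β * u)
      * (∫ w : ℝ, Real.exp (-(2 * nu β * |w|))) * Real.exp (-AA β x) := by
  obtain ⟨n1, n2, n3⟩ := nu_pos h0 h1
  have hC := CK_pos h0 h1
  have hc : 0 < 2 * nu β := by linarith
  rw [Sc_JJ]
  refine (reL_le _).trans ?_
  unfold JJ
  have hb : Integrable fun w : ℝ => 2 * CK β * Real.exp (2 * nu β * u) * Real.exp (-AA β x)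
      * Real.exp (-(2 * nu β * |w|)) := (integrable_exp_abs hc).const_mul _
  refine (norm_integral_le_of_norm_le hb (Eventually.of_forall fun w => ?_)).trans ?_
  · rw [norm_mul, norm_Ex]
    have h2 : Real.exp (-(AA β x * Real.cosh w)) ≤ Real.exp (-AA β x) := by
      rw [Real.exp_le_exp]
      have := Real.one_le_cosh w
      nlinarith only [hx, this]
    calc _ ≤ Real.exp (-AA β x) * (2 * CK β * Real.exp (2 * nu β * u) * Real.exp (-(2 * nu β * |w|))) :=
          mul_le_mul h2 (Fw_bound h0 h1 hu w) (norm_nonneg _) (Real.exp_pos _).le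
      _ = _ := by ring
  · rw [integral_const_mul]
    refine le_of_eq ?_
    ring

theorem Sc_fderiv_bound {β : ℝ} (h0 : 0 < β) (h1 : β < Real.pi / 3) {u : ℝ} (hu : 0 < u) {x : ℂ}
    (hx : 0 < AA β x) : ‖fderiv ℝ (Sc β u) x‖ ≤ 4 * CK β * Real.exp (2 * nu β * u)
      * (∫ w : ℝ, Real.exp (-((2 * nu β - 1) * |w|))) * Real.exp (-AA β x) := by
  obtain ⟨n1, n2, n3⟩ := nu_pos h0 h1
  have hC := CK_pos h0 h1
  have hc : 0 < 2 * nu β - 1 := by linarith
  rw [(Sc_fderiv h0 h1 hu hx).fderiv]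
  have hL : ‖reL.comp (fderiv ℝ (JJ β (Fw β u)) x)‖ ≤ ‖fderiv ℝ (JJ β (Fw β u)) x‖ := by
    refine ContinuousLinearMap.opNorm_le_bound _ (norm_nonneg _) fun v => ?_
    rw [ContinuousLinearMap.comp_apply, Real.norm_eq_abs]
    exact (reL_le _).trans (ContinuousLinearMap.le_opNorm _ _)
  refine hL.trans ?_
  rw [JJ_fderiv_eq (Fw_adm h0 h1 hu) hx]
  have hb : Integrable fun w : ℝ => 4 * CK β * Real.exp (2 * nu β * u) * Real.exp (-AA β x)
      * Real.exp (-((2 * nu β - 1) * |w|)) := (integrable_exp_abs hc).const_mul _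
  refine (norm_integral_le_of_norm_le hb (Eventually.of_forall fun w => ?_)).trans ?_
  · rw [norm_smul, norm_mul, norm_Ex]
    have hcw := Real.cosh_pos w
    have h2 : Real.exp (-(AA β x * Real.cosh w)) ≤ Real.exp (-AA β x) := by
      rw [Real.exp_le_exp]
      have := Real.one_le_cosh w
      nlinarith only [hx, this]
    have h3 : ‖Tw β w‖ ≤ 2 * Real.exp |w| := by
      have := norm_Tw β w
      have := cosh_le_exp w
      linarith
    calc _ ≤ Real.exp (-AA β x) * (2 * CK β * Real.exp (2 * nu β * u) * Real.exp (-(2 * nu β * |w|)))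
          * (2 * Real.exp |w|) := by
          refine mul_le_mul (mul_le_mul h2 (Fw_bound h0 h1 hu w) (norm_nonneg _) (Real.exp_pos _).le)
            h3 (norm_nonneg _) (by positivity)
      _ = 4 * CK β * Real.exp (2 * nu β * u) * Real.exp (-AA β x)
          * (Real.exp (-(2 * nu β * |w|)) * Real.exp |w|) := by ring
      _ = _ := by
          rw [← Real.exp_add]
          congr 2
          ring
  · rw [integral_const_mul]
    refine le_of_eq ?_
    ring

theorem Sc_contOn {β : ℝ} (h0 : 0 < β) (h1 : β < Real.pi / 3) {u : ℝ} (hu : 0 < u) :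
    ContinuousOn (Sc β u) {x | 0 ≤ AA β x} := by
  obtain ⟨n1, n2, n3⟩ := nu_pos h0 h1
  have hC := CK_pos h0 h1
  have hc : 0 < 2 * nu β := by linarith only [n1]
  rw [Sc_JJ]
  refine reL.continuous.comp_continuousOn ?_
  have hb : Integrable fun w : ℝ => 2 * CK β * Real.exp (2 * nu β * u)
      * Real.exp (-(2 * nu β * |w|)) := (integrable_exp_abs hc).const_mul _
  unfold JJ
  refine continuousOn_of_dominated (bound := fun w : ℝ => 2 * CK β * Real.exp (2 * nu β * u)
      * Real.exp (-(2 * nu β * |w|))) ?_ ?_ hb ?_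
  · intro x hx
    exact ((Ex_cont_w β x).mul (Fw_cont h0 h1 u)).aestronglyMeasurable
  · intro x hx
    refine Eventually.of_forall fun w => ?_
    rw [norm_mul, norm_Ex]
    have h2 : Real.exp (-(AA β x * Real.cosh w)) ≤ 1 := by
      rw [Real.exp_le_one_iff]
      have := Real.cosh_pos w
      have hx' : 0 ≤ AA β x := hx
      linarith only [mul_nonneg hx' this.le]
    calc _ ≤ 1 * (2 * CK β * Real.exp (2 * nu β * u) * Real.exp (-(2 * nu β * |w|))) :=
          mul_le_mul h2 (Fw_bound h0 h1 hu w) (norm_nonneg _) zero_le_one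
      _ = _ := one_mul _
  · refine Eventually.of_forall fun w => ?_
    have h : Continuous fun x => Ex β w x * Fw β u w := by
      have e : (fun x => Ex β w x * Fw β u w) = fun x => Complex.exp (Tw β w x) * Fw β u w := by
        funext x; rw [Ex_Tw]
      rw [e]
      fun_prop
    exact h.continuousOn

theorem lap_Sc {β : ℝ} (h0 : 0 < β) (h1 : β < Real.pi / 3) {u : ℝ} (hu : 0 < u) {x : ℂ}
    (hx : 0 < AA β x) : lap (Sc β u) x = Sc β u x := by
  have hopen : IsOpen {x : ℂ | 0 < AA β x} := isOpen_lt continuous_const (AA_cont β)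
  have hF := Fw_adm h0 h1 hu
  have step : ∀ v : ℂ, ‖v‖ ≤ 1 → fderiv ℝ (fun y => fderiv ℝ (Sc β u) y v) x v
      = reL (JJ β (fun w => Tw β w v * (Tw β w v * Fw β u w)) x) := by
    intro v hv
    have e1 : (fun y => fderiv ℝ (Sc β u) y v) =ᶠ[𝓝 x]
        fun y => reL (JJ β (fun w => Tw β w v * Fw β u w) y) := by
      filter_upwards [hopen.mem_nhds hx] with y hy
      rw [(Sc_fderiv h0 h1 hu hy).fderiv, ContinuousLinearMap.comp_apply, JJ_fderiv hF hy]
    rw [e1.fderiv_eq]
    have h2 := JJ_hasFDerivAt (hF.tw (β := β) hv) hx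
    have h3 : HasFDerivAt (fun y => reL (JJ β (fun w => Tw β w v * Fw β u w) y)) _ x :=
      reL.hasFDerivAt.comp x h2
    rw [h3.fderiv, ContinuousLinearMap.comp_apply, ← h2.fderiv, JJ_fderiv (hF.tw hv) hx]
  unfold lap
  rw [step 1 (by simp), step I (by simp), ← map_add, Sc_JJ]
  congr 1
  unfold JJ
  have i1 := integrable_adm (β := β) (h := fun w => Tw β w 1 * (Tw β w 1 * Fw β u w))
    ((hF.tw (v := 1) (by simp)).tw (v := 1) (by simp)).1
    ((hF.tw (v := 1) (by simp)).tw (v := 1) (by simp)).2.choose_spec.choose_spec hx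
  have i2 := integrable_adm (β := β) (h := fun w => Tw β w I * (Tw β w I * Fw β u w))
    ((hF.tw (v := I) (by simp)).tw (v := I) (by simp)).1
    ((hF.tw (v := I) (by simp)).tw (v := I) (by simp)).2.choose_spec.choose_spec hx
  simp only [smul_eq_mul] at i1 i2
  rw [← integral_add i1 i2]
  refine integral_congr_ae (Eventually.of_forall fun w => ?_)
  simp only []
  have e1 : Tw β w 1 = -Complex.cosh (zz β w) := by rw [Tw_apply]; simp
  have e2 : Tw β w I = -(I * Complex.sinh (zz β w)) := by rw [Tw_apply]; simp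
  rw [e1, e2]
  have h3 := Complex.cosh_sq (zz β w)
  linear_combination (Ex β w x * Fw β u w) * h3 + (Ex β w x * Fw β u w * Complex.sinh (zz β w) ^ 2) * I_sq

/-- estimates for the Sommerfeld integral in the closed wedge, the equation in the open wedge -/
theorem w1b : W1bStatement := by
  intro β h0 h1
  obtain ⟨n1, n2, n3⟩ := nu_pos h0 h1
  have hp := Real.pi_pos
  have hC := CK_pos h0 h1
  have hs : 0 < Real.sin (β / 2) := Real.sin_pos_of_pos_of_lt_pi (by linarith) (by linarith only [h0, h1])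
  obtain ⟨A, hA⟩ : ∃ A : ℝ, A = 2 * CK β * (∫ w : ℝ, Real.exp (-(2 * nu β * |w|))) := ⟨_, rfl⟩
  obtain ⟨B, hB⟩ : ∃ B : ℝ, B = 4 * CK β * (∫ w : ℝ, Real.exp (-((2 * nu β - 1) * |w|))) := ⟨_, rfl⟩
  have hA0 : 0 ≤ A := by
    rw [hA]
    have : 0 ≤ ∫ w : ℝ, Real.exp (-(2 * nu β * |w|)) := integral_nonneg fun _ => (Real.exp_pos _).le
    positivity
  have hB0 : 0 ≤ B := by
    rw [hB]
    have : 0 ≤ ∫ w : ℝ, Real.exp (-((2 * nu β - 1) * |w|)) := integral_nonneg fun _ => (Real.exp_pos _).le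
    positivity
  refine ⟨2 * nu β + A + B, Real.sin (β / 2), hs, fun u hu => ⟨?_, ?_, ?_, ?_, ?_⟩⟩
  · refine (Sc_contOn h0 h1 hu).mono fun x hx => ?_
    have := closure_W1 β hx
    exact le_trans (by positivity) (mem_W1 h0 h1 this.1 this.2)
  · rw [Sc_JJ]
    have := (JJ_contDiff (β := β) 2 _ (Fw_adm h0 h1 hu)).mono fun x hx => AA_pos_of_mem h0 h1 hx
    exact reL.contDiff.comp_contDiffOn this
  · intro x hx
    have h2 := closure_W1 β hx
    have h3 := mem_W1 h0 h1 h2.1 h2.2
    have h4 := Sc_bound h0 h1 hu (x := x) (le_trans (by positivity) h3)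
    refine h4.trans ?_
    calc _ = A * Real.exp (2 * nu β * u) * Real.exp (-AA β x) := by rw [hA]; ring
      _ ≤ _ := by
        refine mul_le_mul (mul_le_mul ?_ ?_ (Real.exp_pos _).le (by positivity)) ?_
          (Real.exp_pos _).le (by positivity)
        · linarith
        · rw [Real.exp_le_exp]
          exact mul_le_mul_of_nonneg_right (by linarith) hu.le
        · rw [Real.exp_le_exp]; linarith
  · intro x hx
    have h3 := mem_W1 h0 h1 hx.1.le hx.2.le
    have h4 := Sc_fderiv_bound h0 h1 hu (x := x) (AA_pos_of_mem h0 h1 hx)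
    refine h4.trans ?_
    calc _ = B * Real.exp (2 * nu β * u) * Real.exp (-AA β x) := by rw [hB]; ring
      _ ≤ _ := by
        refine mul_le_mul (mul_le_mul ?_ ?_ (Real.exp_pos _).le (by positivity)) ?_
          (Real.exp_pos _).le (by positivity)
        · linarith
        · rw [Real.exp_le_exp]
          exact mul_le_mul_of_nonneg_right (by linarith) hu.le
        · rw [Real.exp_le_exp]; linarith
  · intro x hx
    exact lap_Sc h0 h1 hu (AA_pos_of_mem h0 h1 hx)

end Pool.Agent.H16F.H81
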